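import Mathlib

/-! Connected vertex sets, by edge cuts. -/

set_option autoImplicit false
set_option linter.unusedSectionVars false

namespace Pool.Agent.T2H84

open Finset

variable {V : Type*} [DecidableEq V]

/-- `C` is nonempty and cannot be split into two nonempty parts without an edge between them. -/
def Conn (G : SimpleGraph V) (C : Finset V) : Prop :=
  C.Nonempty ∧ ∀ A ⊆ C, A.Nonempty → A ≠ C → ∃ a ∈ A, ∃ b ∈ C, b ∉ A ∧ G.Adj a b

theorem conn_iff (G : SimpleGraph V) (C : Finset V) :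
    Conn G C ↔ (G.induce (C : Set V)).Connected := by
  classical
  constructor
  · rintro ⟨⟨x, hx⟩, h⟩
    rw [SimpleGraph.connected_iff]
    refine ⟨?_, ⟨x, hx⟩⟩
    intro y z
    let A : Finset V := C.filter fun w => ∃ hw : w ∈ C, (G.induce (C : Set V)).Reachable y ⟨w, hw⟩
    have hyA : (y : V) ∈ A := by
      simp only [A, mem_filter]
      exact ⟨y.2, y.2, SimpleGraph.Reachable.refl _⟩
    have hA : A = C := by
      by_contra hne
      obtain ⟨a, ha, b, hb, hbA, hab⟩ := h A (filter_subset _ _) ⟨y, hyA⟩ hne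
      apply hbA
      simp only [A, mem_filter] at ha ⊢
      obtain ⟨haC, _, har⟩ := ha
      refine ⟨hb, hb, har.trans ?_⟩
      apply SimpleGraph.Adj.reachable
      exact hab
    have hz : (z : V) ∈ A := by rw [hA]; exact z.2
    simp only [A, mem_filter] at hz
    exact hz.2.2
  · intro h
    obtain ⟨x⟩ := h.nonempty
    refine ⟨⟨x, x.2⟩, ?_⟩
    intro A hAC ⟨a, ha⟩ hne
    obtain ⟨b, hb, hbA⟩ : ∃ b ∈ C, b ∉ A := by
      by_contra hcon
      push Not at hcon
      exact hne (Subset.antisymm hAC hcon)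
    obtain ⟨p⟩ := h.preconnected ⟨a, hAC ha⟩ ⟨b, hb⟩
    obtain ⟨d, -, hd1, hd2⟩ := p.exists_boundary_dart {v | (v : V) ∈ A} ha hbA
    exact ⟨d.fst, hd1, d.snd, d.snd.2, hd2, d.adj⟩

variable {G : SimpleGraph V}

/-- In a connected set, a proper nonempty part avoiding a given vertex has an edge leaving it. -/
theorem conn_of_avoid {C : Finset V} {c : V} (hc : c ∈ C)
    (h : ∀ A ⊆ C, A.Nonempty → c ∉ A → ∃ a ∈ A, ∃ b ∈ C, b ∉ A ∧ G.Adj a b) : Conn G C := by
  refine ⟨⟨c, hc⟩, fun A hA hne hAC => ?_⟩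
  by_cases hcA : c ∈ A
  · have hne2 : (C \ A).Nonempty := by
      rw [sdiff_nonempty]
      exact fun h => hAC (Subset.antisymm hA h)
    obtain ⟨a, ha, b, hb, hbA, hab⟩ := h (C \ A) sdiff_subset hne2 (by simp [hcA])
    rw [mem_sdiff] at ha
    have hb' : b ∈ A := by
      by_contra hb'
      exact hbA (mem_sdiff.2 ⟨hb, hb'⟩)
    exact ⟨b, hb', a, ha.1, ha.2, hab.symm⟩
  · exact h A hA hne hcA

theorem conn_singleton (v : V) : Conn G {v} := by
  refine ⟨⟨v, mem_singleton_self v⟩, fun A hA hne hAC => ?_⟩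
  exact absurd (hne.subset_singleton_iff.1 hA) hAC

theorem conn_union {C D : Finset V} (hC : Conn G C) (hD : Conn G D) {c : V} (h1 : c ∈ C)
    (h2 : c ∈ D) : Conn G (C ∪ D) := by
  refine conn_of_avoid (mem_union_left _ h1) (fun A hA hne hcA => ?_)
  obtain ⟨a, ha⟩ := hne
  rcases mem_union.1 (hA ha) with h | h
  · obtain ⟨x, hx, y, hy, hyA, hxy⟩ := hC.2 (A ∩ C) inter_subset_right ⟨a, mem_inter.2 ⟨ha, h⟩⟩
      (fun he => hcA (mem_inter.1 (show c ∈ A ∩ C by rw [he]; exact h1)).1)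
    exact ⟨x, (mem_inter.1 hx).1, y, mem_union_left _ hy,
      fun hyA' => hyA (mem_inter.2 ⟨hyA', hy⟩), hxy⟩
  · obtain ⟨x, hx, y, hy, hyA, hxy⟩ := hD.2 (A ∩ D) inter_subset_right ⟨a, mem_inter.2 ⟨ha, h⟩⟩
      (fun he => hcA (mem_inter.1 (show c ∈ A ∩ D by rw [he]; exact h2)).1)
    exact ⟨x, (mem_inter.1 hx).1, y, mem_union_right _ hy,
      fun hyA' => hyA (mem_inter.2 ⟨hyA', hy⟩), hxy⟩

/-- Adding a vertex to a connected set. -/
theorem conn_insert {C : Finset V} {v : V} (hC : Conn G C) (hv : v ∉ C) :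
    Conn G (insert v C) ↔ ∃ u ∈ C, G.Adj v u := by
  constructor
  · intro h
    obtain ⟨a, ha, b, hb, hbA, hab⟩ := h.2 {v} (by simp) (by simp) (by
      intro he
      obtain ⟨c, hc⟩ := hC.1
      have : c ∈ ({v} : Finset V) := he ▸ mem_insert_of_mem hc
      rw [mem_singleton] at this
      exact hv (this ▸ hc))
    rw [mem_singleton] at ha hbA
    subst ha
    rcases mem_insert.1 hb with h | h
    · exact absurd h hbA
    · exact ⟨b, h, hab⟩
  · rintro ⟨u, hu, hvu⟩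
    refine conn_of_avoid (c := u) (mem_insert_of_mem hu) (fun A hA hne huA => ?_)
    by_cases hvA : v ∈ A
    · exact ⟨v, hvA, u, mem_insert_of_mem hu, huA, hvu⟩
    · have hAC : A ⊆ C := fun x hx => by
        rcases mem_insert.1 (hA hx) with h | h
        · exact absurd (h ▸ hx) hvA
        · exact h
      obtain ⟨a, ha, b, hb, hbA, hab⟩ := hC.2 A hAC hne (fun he => huA (he ▸ hu))
      exact ⟨a, ha, b, mem_insert_of_mem hb, hbA, hab⟩

/-- Splitting at a cut vertex. -/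
theorem split {C : Finset V} (hC : Conn G C) {c : V} (hc : c ∈ C) (h2 : 2 ≤ C.card)
    (hcut : ¬ Conn G (C.erase c)) :
    ∃ F₁ F₂ : Finset V, F₁ ∪ F₂ = C ∧ F₁ ∩ F₂ = {c} ∧ 2 ≤ F₁.card ∧ 2 ≤ F₂.card ∧
      Conn G F₁ ∧ Conn G F₂ ∧ (∀ a ∈ F₁, ∀ b ∈ F₂, a ≠ c → b ≠ c → ¬ G.Adj a b) := by
  have hne : (C.erase c).Nonempty := by
    rw [← card_pos, card_erase_of_mem hc]; omega
  have hex : ∃ A ⊆ C.erase c, A.Nonempty ∧ A ≠ C.erase c ∧
      ∀ a ∈ A, ∀ b ∈ C.erase c, b ∉ A → ¬ G.Adj a b := by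
    by_contra hcon
    apply hcut
    refine ⟨hne, fun A hA hA1 hA2 => ?_⟩
    by_contra hcon2
    push Not at hcon2
    exact hcon ⟨A, hA, hA1, hA2, hcon2⟩
  obtain ⟨A, hA, hA1, hA2, hA3⟩ := hex
  have hcA : c ∉ A := fun h => by simpa using hA h
  have hAC : A ⊆ C := hA.trans (erase_subset _ _)
  refine ⟨insert c A, C \ A, ?_, ?_, ?_, ?_, ?_, ?_, ?_⟩
  · ext x
    simp only [mem_union, mem_insert, mem_sdiff]
    constructor
    · rintro ((rfl | h) | h)
      · exact hc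
      · exact hAC h
      · exact h.1
    · intro h
      by_cases hx : x ∈ A
      · exact Or.inl (Or.inr hx)
      · exact Or.inr ⟨h, hx⟩
  · ext x
    simp only [mem_inter, mem_insert, mem_sdiff, mem_singleton]
    constructor
    · rintro ⟨rfl | h, h3⟩
      · rfl
      · exact absurd h h3.2
    · rintro rfl
      exact ⟨Or.inl rfl, hc, hcA⟩
  · rw [card_insert_of_notMem hcA]
    have := hA1.card_pos
    omega
  · have h3 : A.card < (C.erase c).card := card_lt_card (hA.ssubset_of_ne hA2)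
    rw [card_erase_of_mem hc] at h3
    rw [card_sdiff_of_subset hAC]
    omega
  · refine conn_of_avoid (mem_insert_self c A) (fun B hB hne hcB => ?_)
    have hBA : B ⊆ A := fun x hx => by
      rcases mem_insert.1 (hB hx) with h | h
      · exact absurd (h ▸ hx) hcB
      · exact h
    obtain ⟨a, ha, b, hb, hbB, hab⟩ := hC.2 B (hBA.trans hAC) hne (fun he => hcB (he ▸ hc))
    refine ⟨a, ha, b, ?_, hbB, hab⟩
    by_contra hb2
    rw [mem_insert, not_or] at hb2
    exact hA3 a (hBA ha) b (mem_erase.2 ⟨hb2.1, hb⟩) hb2.2 hab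
  · refine conn_of_avoid (c := c) (mem_sdiff.2 ⟨hc, hcA⟩) (fun B hB hne hcB => ?_)
    obtain ⟨a, ha, b, hb, hbB, hab⟩ := hC.2 B (hB.trans sdiff_subset) hne
      (fun he => hcB (he ▸ hc))
    refine ⟨a, ha, b, ?_, hbB, hab⟩
    rw [mem_sdiff]
    refine ⟨hb, fun hbA => ?_⟩
    have ha2 := mem_sdiff.1 (hB ha)
    have hac : a ≠ c := fun h => hcB (h ▸ ha)
    exact hA3 b hbA a (mem_erase.2 ⟨hac, ha2.1⟩) ha2.2 hab.symm
  · intro a ha b hb hac hbc
    rw [mem_sdiff] at hb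
    rcases mem_insert.1 ha with h | h
    · exact absurd h hac
    · exact hA3 a h b (mem_erase.2 ⟨hbc, hb.1⟩) hb.2

/-- Removability in a union of two connected sets sharing one vertex. -/
theorem conn_erase_union {C F₁ F₂ : Finset V} {c : V} (hU : F₁ ∪ F₂ = C) (hI : F₁ ∩ F₂ = {c})
    (hF₂ : Conn G F₂)
    (hno : ∀ a ∈ F₁, ∀ b ∈ F₂, a ≠ c → b ≠ c → ¬ G.Adj a b) {v : V} (hv : v ∈ F₁) (hvc : v ≠ c) :
    Conn G (C.erase v) ↔ Conn G (F₁.erase v) := by
  have hc1 : c ∈ F₁ := (mem_inter.1 (hI ▸ mem_singleton_self c : c ∈ F₁ ∩ F₂)).1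
  have hc2 : c ∈ F₂ := (mem_inter.1 (hI ▸ mem_singleton_self c : c ∈ F₁ ∩ F₂)).2
  have hv2 : v ∉ F₂ := fun h => hvc (mem_singleton.1 (hI ▸ mem_inter.2 ⟨hv, h⟩ : v ∈ ({c} : Finset V)))
  constructor
  · intro h
    refine conn_of_avoid (c := c) (mem_erase.2 ⟨hvc.symm, hc1⟩) (fun A hA hne hcA => ?_)
    obtain ⟨a, ha, b, hb, hbA, hab⟩ := h.2 A
      (fun x hx => by
        have := mem_erase.1 (hA hx)
        exact mem_erase.2 ⟨this.1, hU ▸ mem_union_left _ this.2⟩) hne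
      (fun he => hcA (he ▸ mem_erase.2 ⟨hvc.symm, hU ▸ mem_union_left _ hc1⟩))
    refine ⟨a, ha, b, ?_, hbA, hab⟩
    have hb1 := mem_erase.1 hb
    rw [mem_erase]
    refine ⟨hb1.1, ?_⟩
    have hac : a ≠ c := fun h => hcA (h ▸ ha)
    have ha1 := (mem_erase.1 (hA ha)).2
    by_contra hb2
    have hb3 : b ∈ F₂ := by
      have := hb1.2
      rw [← hU, mem_union] at this
      exact this.resolve_left hb2
    exact hno a ha1 b hb3 hac (fun h => hb2 (h ▸ hc1)) hab
  · intro h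
    have he : C.erase v = F₁.erase v ∪ F₂ := by
      rw [← hU]
      ext x
      simp only [mem_erase, mem_union]
      constructor
      · rintro ⟨h1, h2 | h2⟩
        · exact Or.inl ⟨h1, h2⟩
        · exact Or.inr h2
      · rintro (⟨h1, h2⟩ | h2)
        · exact ⟨h1, Or.inl h2⟩
        · exact ⟨fun h => hv2 (h ▸ h2), Or.inr h2⟩
    rw [he]
    exact conn_union h hF₂ (mem_erase.2 ⟨hvc.symm, hc1⟩) hc2

end Pool.Agent.T2H84
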