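import Pool.Agent.T2H84.ConnBound

/-! The number of removable vertices of a connected set: sets without cut vertex, and the claim. -/

set_option autoImplicit false
set_option linter.unusedSectionVars false

namespace Pool.Agent.T2H84

open Finset

noncomputable section

open scoped Classical

variable {V : Type*} [DecidableEq V] {G : SimpleGraph V}

theorem deg_le {F : Finset V} {v : V} (hv : v ∈ F) : deg G F v + 1 ≤ F.card := by
  have h : F.filter (G.Adj v) ⊆ F.erase v := by
    intro x hx
    rw [mem_filter] at hx
    rw [mem_erase]
    exact ⟨fun he => G.irrefl (he ▸ hx.2 : G.Adj v v), hx.1⟩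
  have := card_le_card h
  rw [card_erase_of_mem hv] at this
  have h1 : 1 ≤ F.card := card_pos.2 ⟨v, hv⟩
  unfold deg
  omega

theorem hh_le_deg (D : V → ℕ) (F : Finset V) (v : V) : hh G D F v ≤ deg G F v := by
  apply card_le_card
  intro x hx
  rw [mem_filter] at hx ⊢
  exact ⟨hx.1, hx.2.1⟩

theorem two_le_deg {F : Finset V} (hF : Conn G F) (h3 : 3 ≤ F.card)
    (hall : ∀ v ∈ F, Conn G (F.erase v)) {v : V} (hv : v ∈ F) : 2 ≤ deg G F v := by
  have h1 := deg_pos hF (by omega) hv
  obtain ⟨u, hu⟩ := card_pos.1 h1
  rw [mem_filter] at hu
  have huv : v ≠ u := hu.2.ne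
  have h2 : 1 ≤ deg G (F.erase u) v := deg_pos (hall u hu.1)
    (by rw [card_erase_of_mem hu.1]; omega) (mem_erase.2 ⟨huv, hv⟩)
  obtain ⟨w, hw⟩ := card_pos.1 h2
  rw [mem_filter, mem_erase] at hw
  have : ({u, w} : Finset V) ⊆ F.filter (G.Adj v) := by
    intro x hx
    rw [mem_insert, mem_singleton] at hx
    rcases hx with rfl | rfl
    · exact mem_filter.2 hu
    · exact mem_filter.2 ⟨hw.1.2, hw.2⟩
  have h4 := card_le_card this
  rw [card_pair hw.1.1.symm] at h4
  exact h4

theorem block {F : Finset V} (hF : Conn G F) (h3 : 3 ≤ F.card)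
    (hall : ∀ v ∈ F, Conn G (F.erase v)) {W : Finset V} (hW : W ⊆ F) (hWne : W.Nonempty)
    (D : V → ℕ) (hD1 : ∀ u ∈ F, u ∉ W → D u = deg G F u) (hD2 : ∀ w ∈ W, deg G F w + 1 ≤ D w) :
    (6 : ℤ) - 3 * W.card ≤ Th G D F W := by
  have hdeg : ∀ v ∈ F, 2 ≤ deg G F v := fun v hv => two_le_deg hF h3 hall hv
  have hRem : Rem G F = F := filter_true_of_mem hall
  have hcost : cost G D F W = W := by
    ext x
    simp only [cost, mem_filter]
    constructor
    · rintro ⟨hx, h1 | h1, -⟩
      · exact h1
      · exact absurd (hall x hx) h1
    · intro hx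
      have h1 := hdeg x (hW hx)
      have h2 := hD2 x hx
      exact ⟨hW hx, Or.inl hx, h1, by omega⟩
  have hD0 : ∀ u ∈ F, D u ≠ 1 := by
    intro u hu h1
    by_cases huW : u ∈ W
    · have := hD2 u huW; have := hdeg u hu; omega
    · have := hD1 u hu huW; have := hdeg u hu; omega
  set N := F \ W with hN
  set N2 := N.filter fun v => deg G F v = 2 with hN2
  set N3 := N.filter fun v => deg G F v = 3 with hN3
  set N4 := N.filter fun v => 4 ≤ deg G F v with hN4
  set W2 := W.filter fun v => deg G F v = 2 with hW2
  have hNF : N ⊆ F := sdiff_subset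
  have hsplit : ∀ f : V → ℕ, ∑ v ∈ N, f v = ∑ v ∈ N2, f v + ∑ v ∈ N3, f v + ∑ v ∈ N4, f v := by
    intro f
    rw [hN2, hN3, hN4, sum_filter, sum_filter, sum_filter, ← sum_add_distrib, ← sum_add_distrib]
    refine sum_congr rfl fun v hv => ?_
    have := hdeg v (hNF hv)
    rcases Nat.lt_or_ge (deg G F v) 3 with h | h
    · have h2 : deg G F v = 2 := by omega
      simp [h2]
    · rcases Nat.lt_or_ge (deg G F v) 4 with h' | h'
      · have h2 : deg G F v = 3 := by omega
        simp [h2]
      · rw [if_neg (by omega), if_neg (by omega), if_pos h']; simp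
  have hcardN : N.card = N2.card + N3.card + N4.card := by
    have := hsplit (fun _ => 1)
    simpa using this
  have hcardF : F.card = N.card + W.card := by
    rw [hN, card_sdiff_of_subset hW]
    have := card_le_card hW
    omega
  have hq : 1 ≤ W.card := hWne.card_pos
  -- the three bounds
  have b2 : ∑ v ∈ N2, hh G D F v ≤ 2 * N2.card := by
    rw [mul_comm, ← smul_eq_mul]
    apply sum_le_card_nsmul
    intro v hv
    have := hh_le_deg (G := G) D F v
    rw [hN2, mem_filter] at hv
    omega
  have b3 : ∑ v ∈ N3, (hh G D F v + (N4.filter (G.Adj v)).card) ≤ 3 * N3.card := by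
    rw [mul_comm, ← smul_eq_mul]
    apply sum_le_card_nsmul
    intro v hv
    rw [hN3, mem_filter] at hv
    rw [← hv.2]
    unfold hh
    rw [← card_union_of_disjoint]
    · apply card_le_card
      intro x hx
      rw [mem_union, mem_filter, mem_filter] at hx
      rw [mem_filter]
      rcases hx with hx | hx
      · exact ⟨hx.1, hx.2.1⟩
      · exact ⟨hNF (mem_filter.1 hx.1).1, hx.2⟩
    · rw [disjoint_left]
      intro x hx1 hx2
      rw [mem_filter] at hx1 hx2
      have hx3 := mem_filter.1 hx2.1
      have hx4 := hD1 x hx1.1 (mem_sdiff.1 hx3.1).2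
      rcases hx1.2.2 with h | h <;> omega
  have b4 : ∑ v ∈ N4, hh G D F v ≤ ∑ v ∈ N4, (N3.filter (G.Adj v)).card +
      ∑ v ∈ N4, (W2.filter (G.Adj v)).card := by
    rw [← sum_add_distrib]
    refine sum_le_sum fun v hv => ?_
    refine le_trans (card_le_card ?_) (card_union_le _ _)
    intro x hx
    rw [mem_filter] at hx
    have hx3 : D x = 3 := hx.2.2.resolve_right (hD0 x hx.1)
    by_cases hxW : x ∈ W
    · refine mem_union_right _ (mem_filter.2 ⟨mem_filter.2 ⟨hxW, ?_⟩, hx.2.1⟩)
      have := hD2 x hxW; have := hdeg x hx.1; omega
    · refine mem_union_left _ (mem_filter.2 ⟨mem_filter.2 ⟨mem_sdiff.2 ⟨hx.1, hxW⟩, ?_⟩, hx.2.1⟩)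
      rw [← hD1 x hx.1 hxW]; exact hx3
  have c3 : ∑ v ∈ N4, (N3.filter (G.Adj v)).card = ∑ v ∈ N3, (N4.filter (G.Adj v)).card := by
    have := sum_card_bipartiteAbove_eq_sum_card_bipartiteBelow (s := N4) (t := N3) (fun a b => G.Adj a b)
    unfold bipartiteAbove bipartiteBelow at this
    rw [this]
    refine sum_congr rfl fun v _ => ?_
    congr 1
    ext x
    simp only [mem_filter, G.adj_comm]
  have c4 : ∑ v ∈ N4, (W2.filter (G.Adj v)).card ≤ min 2 N4.card * W.card := by
    have := sum_card_bipartiteAbove_eq_sum_card_bipartiteBelow (s := N4) (t := W2) (fun a b => G.Adj a b)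
    unfold bipartiteAbove bipartiteBelow at this
    rw [this]
    have h5 : ∑ b ∈ W2, (N4.filter fun a => G.Adj a b).card ≤ W2.card • min 2 N4.card := by
      apply sum_le_card_nsmul
      intro b hb
      refine le_min ?_ (card_le_card (filter_subset _ _))
      rw [hW2, mem_filter] at hb
      rw [← hb.2]
      apply card_le_card
      intro x hx
      rw [mem_filter] at hx ⊢
      exact ⟨hNF (mem_filter.1 hx.1).1, hx.2.symm⟩
    refine h5.trans ?_
    rw [smul_eq_mul, mul_comm]
    exact Nat.mul_le_mul_left _ (card_le_card (filter_subset _ _))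
  have hP : ∑ v ∈ N, hh G D F v ≤ 2 * N2.card + 3 * N3.card + min 2 N4.card * W.card := by
    rw [hsplit]
    rw [sum_add_distrib] at b3
    omega
  have key : ∑ v ∈ N, hh G D F v + 6 ≤ 4 * N.card + 2 * W.card := by
    rcases Nat.lt_or_ge N4.card 2 with h4 | h4
    · rcases Nat.eq_zero_or_pos N4.card with h40 | h40
      · rw [h40] at hP
        simp only [Nat.min_zero, Nat.zero_mul] at hP
        have hmin : min 2 0 = 0 := rfl
        rcases Nat.lt_or_ge F.card 5 with h5 | h5
        · rcases Nat.lt_or_ge F.card 4 with h6 | h6
          · -- three vertices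
            have h7 : N3.card = 0 := by
              rw [card_eq_zero, ← not_nonempty_iff_eq_empty]
              rintro ⟨v, hv⟩
              rw [hN3, mem_filter] at hv
              have := deg_le (G := G) (hNF hv.1)
              omega
            omega
          · by_cases h8 : N2.card + W.card = 1
            · -- the complete graph on four vertices
              have h9 : N3.card = 3 := by omega
              obtain ⟨w, hw⟩ := hWne
              have h10 : ∀ v ∈ N3, G.Adj v w := by
                intro v hv
                rw [hN3, mem_filter] at hv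
                have hsub : F.filter (G.Adj v) ⊆ F.erase v := by
                  intro x hx
                  rw [mem_filter] at hx
                  rw [mem_erase]
                  exact ⟨fun he => G.irrefl (he ▸ hx.2 : G.Adj v v), hx.1⟩
                have heq : F.filter (G.Adj v) = F.erase v := by
                  apply eq_of_subset_of_card_le hsub
                  rw [card_erase_of_mem (hNF hv.1)]
                  have : (F.filter (G.Adj v)).card = 3 := hv.2
                  omega
                have : w ∈ F.erase v := mem_erase.2 ⟨fun he => (mem_sdiff.1 hv.1).2 (he ▸ hw), hW hw⟩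
                rw [← heq, mem_filter] at this
                exact this.2
              have h11 : 3 ≤ deg G F w := by
                rw [← h9]
                apply card_le_card
                intro x hx
                exact mem_filter.2 ⟨hNF (mem_filter.1 hx).1, (h10 x hx).symm⟩
              have h12 : 4 ≤ D w := by have := hD2 w hw; omega
              have h13 : ∀ v ∈ N3, hh G D F v ≤ 2 := by
                intro v hv
                have h14 : F.filter (fun u => G.Adj v u ∧ (D u = 3 ∨ D u = 1)) ⊆
                    (F.filter (G.Adj v)).erase w := by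
                  intro x hx
                  rw [mem_filter] at hx
                  rw [mem_erase, mem_filter]
                  refine ⟨?_, hx.1, hx.2.1⟩
                  rintro rfl
                  rcases hx.2.2 with h | h <;> omega
                have h15 := card_le_card h14
                rw [card_erase_of_mem (mem_filter.2 ⟨hW hw, h10 v hv⟩)] at h15
                have h16 : (F.filter (G.Adj v)).card = 3 := (mem_filter.1 hv).2
                rw [h16] at h15
                exact h15
              have h17 : ∑ v ∈ N3, hh G D F v ≤ N3.card • 2 := sum_le_card_nsmul _ _ _ h13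
              have h18 : N2 = ∅ := by rw [← card_eq_zero]; omega
              have h19 : N4 = ∅ := by rw [← card_eq_zero]; omega
              rw [hsplit, h18, h19]
              simp only [sum_empty]
              rw [smul_eq_mul] at h17
              omega
            · omega
        · omega
      · -- one vertex of large degree
        have h1 : N4.card = 1 := by omega
        rw [h1] at hP
        have hmin : min 2 1 = 1 := rfl
        rw [hmin] at hP
        obtain ⟨v, hv⟩ := card_pos.1 h40
        have h5 := deg_le (G := G) (hNF (mem_filter.1 hv).1)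
        have h6 := (mem_filter.1 hv).2
        omega
    · rw [min_eq_left h4] at hP
      omega
  unfold Th
  rw [hRem, hcost, ← hN, sum_sub_distrib]
  simp only [sum_const, nsmul_eq_mul]
  have key' : ((∑ v ∈ N, hh G D F v : ℕ) : ℤ) + 6 ≤ 4 * (N.card : ℤ) + 2 * (W.card : ℤ) := by
    exact_mod_cast key
  push_cast at key'
  linarith

/-- The general claim about marked connected sets. -/
theorem claim (D : V → ℕ) : ∀ (n : ℕ) (F : Finset V), F.card = n → Conn G F → 2 ≤ F.card →
    ∀ W ⊆ F, W.Nonempty → (∀ u ∈ F, u ∉ W → D u = deg G F u) → (∀ w ∈ W, deg G F w + 1 ≤ D w) →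
    (6 : ℤ) - 3 * W.card ≤ Th G D F W := by
  intro n
  induction n using Nat.strong_induction_on with
  | _ n ih =>
    intro F hn hF h2 W hW hWne hD1 hD2
    by_cases hcut : ∃ c ∈ F, ¬ Conn G (F.erase c)
    · obtain ⟨c, hc, hcc⟩ := hcut
      obtain ⟨F₁, F₂, hU, hI, hc1, hc2, hF₁, hF₂, hno⟩ := split hF hc h2 hcc
      have hg : Glue G F F₁ F₂ c := ⟨hU, hI, hF₁, hF₂, hno⟩
      have hcard : F₁.card + F₂.card = F.card + 1 := by
        have := card_union_add_card_inter F₁ F₂
        rw [hU, hI, card_singleton] at this
        omega
      have side : ∀ {A B : Finset V}, Glue G F A B c → 2 ≤ A.card → 2 ≤ B.card → A.card < n →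
          (6 : ℤ) - 3 * (insert c (W ∩ A)).card ≤ Th G D A (insert c (W ∩ A)) := by
        intro A B hAB hA2 hB2 hAn
        refine ih A.card hAn A rfl hAB.conn₁ hA2 _ ?_ ⟨c, mem_insert_self _ _⟩ ?_ ?_
        · intro x hx
          rcases mem_insert.1 hx with h | h
          · exact h ▸ hAB.mem₁
          · exact (mem_inter.1 h).2
        · intro u hu huW
          rw [mem_insert, mem_inter, not_or, not_and] at huW
          have h1 : u ∉ W := fun h => huW.2 h hu
          rw [hD1 u (hAB.sub₁ hu) h1, hAB.deg hu huW.1]
        · intro w hw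
          rcases mem_insert.1 hw with h | h
          · subst h
            have h3 := hAB.deg_c
            have h4 : 1 ≤ deg G B w := deg_pos hAB.conn₂ hB2 hAB.symm.mem₁
            by_cases hwW : w ∈ W
            · have := hD2 w hwW; omega
            · have := hD1 w hc hwW; omega
          · rw [mem_inter] at h
            by_cases hwc : w = c
            · subst hwc
              have h3 := hAB.deg_c
              have := hD2 w h.1; omega
            · rw [← hAB.deg h.2 hwc]
              exact hD2 w h.1
      have s1 := side hg hc1 hc2 (by omega)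
      have s2 := side hg.symm hc2 hc1 (by omega)
      have t1 := glue_sum hg D W hcc
      have t2 := glue_cost hg D W (fun h => hD1 c hc h)
      have t3 := card_W hg hW
      have hq : 1 ≤ W.card := hWne.card_pos
      unfold Th at s1 s2 ⊢
      rw [t1]
      by_cases hcW : c ∈ W
      · rw [if_pos hcW] at t2 t3
        have t2' : ((cost G D F W).card : ℤ) ≤ (cost G D F₁ (insert c (W ∩ F₁))).card +
            (cost G D F₂ (insert c (W ∩ F₂))).card + 1 := by exact_mod_cast t2
        have t3' : ((insert c (W ∩ F₁)).card : ℤ) + (insert c (W ∩ F₂)).card = W.card + 1 := by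
          have : (insert c (W ∩ F₁)).card + (insert c (W ∩ F₂)).card = W.card + 1 := by omega
          exact_mod_cast this
        linarith
      · rw [if_neg hcW] at t2 t3
        have t2' : ((cost G D F W).card : ℤ) ≤ (cost G D F₁ (insert c (W ∩ F₁))).card +
            (cost G D F₂ (insert c (W ∩ F₂))).card := by exact_mod_cast t2
        have t3' : ((insert c (W ∩ F₁)).card : ℤ) + (insert c (W ∩ F₂)).card = W.card + 2 := by
          have : (insert c (W ∩ F₁)).card + (insert c (W ∩ F₂)).card = W.card + 2 := by omega
          exact_mod_cast this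
        linarith
    · push Not at hcut
      rcases Nat.lt_or_ge F.card 3 with h3 | h3
      · -- two vertices
        have hc2 : F.card = 2 := by omega
        have hdeg1 : ∀ v ∈ F, deg G F v = 1 := by
          intro v hv
          have := deg_pos hF h2 hv
          have := deg_le (G := G) hv
          omega
        have hcost : cost G D F W = ∅ := by
          rw [cost, filter_eq_empty_iff]
          rintro x hx ⟨-, h, -⟩
          rw [hdeg1 x hx] at h
          omega
        have hRem : Rem G F = F := filter_true_of_mem hcut
        unfold Th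
        rw [hcost, hRem, card_empty]
        have hb : ∀ v ∈ F \ W, (3 : ℤ) ≤ 4 - (hh G D F v : ℤ) := by
          intro v hv
          have h4 := hh_le_deg (G := G) D F v
          rw [hdeg1 v (mem_sdiff.1 hv).1] at h4
          have : (hh G D F v : ℤ) ≤ 1 := by exact_mod_cast h4
          linarith
        have hs : ((F \ W).card : ℤ) * 3 ≤ ∑ v ∈ F \ W, (4 - (hh G D F v : ℤ)) := by
          have := card_nsmul_le_sum (F \ W) (fun v => 4 - (hh G D F v : ℤ)) 3 hb
          simpa using this
        have h5 : (F \ W).card + W.card = 2 := by
          rw [card_sdiff_of_subset hW, hc2]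
          have := card_le_card hW
          omega
        have h5' : ((F \ W).card : ℤ) + W.card = 2 := by exact_mod_cast h5
        push_cast
        linarith
      · exact block hF h3 hcut hW hWne D hD1 hD2

/-- Every connected set with at least two vertices: the removable vertices pay for the cut vertices
of degree at least three. -/
theorem removable {F : Finset V} (hF : Conn G F) (h2 : 2 ≤ F.card) :
    ((F.filter fun u => ¬ Conn G (F.erase u) ∧ 3 ≤ deg G F u).card : ℤ) ≤
      ∑ v ∈ Rem G F, (4 - (hh G (deg G F) F v : ℤ)) := by
  have hcost : (F.filter fun u => ¬ Conn G (F.erase u) ∧ 3 ≤ deg G F u) =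
      cost G (deg G F) F ∅ := by
    ext x
    simp only [cost, mem_filter, notMem_empty, false_or]
    constructor
    · rintro ⟨h1, h3, h4⟩; exact ⟨h1, h3, by omega, h4⟩
    · rintro ⟨h1, h3, -, h4⟩; exact ⟨h1, h3, h4⟩
  rw [hcost]
  by_cases hcut : ∃ c ∈ F, ¬ Conn G (F.erase c)
  · obtain ⟨c, hc, hcc⟩ := hcut
    obtain ⟨F₁, F₂, hU, hI, hc1, hc2, hF₁, hF₂, hno⟩ := split hF hc h2 hcc
    have hg : Glue G F F₁ F₂ c := ⟨hU, hI, hF₁, hF₂, hno⟩
    have side : ∀ {A B : Finset V}, Glue G F A B c → 2 ≤ A.card → 2 ≤ B.card →
        (3 : ℤ) ≤ Th G (deg G F) A (insert c (∅ ∩ A)) := by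
      intro A B hAB hA2 hB2
      have := claim (G := G) (deg G F) A.card A rfl hAB.conn₁ hA2 (insert c (∅ ∩ A)) ?_
        ⟨c, mem_insert_self _ _⟩ ?_ ?_
      · refine le_trans ?_ this
        simp
      · intro x hx
        rcases mem_insert.1 hx with h | h
        · exact h ▸ hAB.mem₁
        · simp at h
      · intro u hu huW
        rw [mem_insert, not_or] at huW
        rw [hAB.deg hu huW.1]
      · intro w hw
        rcases mem_insert.1 hw with h | h
        · subst h
          have h3 := hAB.deg_c
          have h4 : 1 ≤ deg G B w := deg_pos hAB.conn₂ hB2 hAB.symm.mem₁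
          omega
        · simp at h
    have s1 := side hg hc1 hc2
    have s2 := side hg.symm hc2 hc1
    have t1 := glue_sum hg (deg G F) ∅ hcc
    have t2 := glue_cost hg (deg G F) ∅ (fun _ => rfl)
    unfold Th at s1 s2
    rw [sdiff_empty] at t1
    rw [t1]
    rw [if_neg (notMem_empty c), add_zero] at t2
    have t2' : ((cost G (deg G F) F ∅).card : ℤ) ≤
        (cost G (deg G F) F₁ (insert c (∅ ∩ F₁))).card +
        (cost G (deg G F) F₂ (insert c (∅ ∩ F₂))).card := by exact_mod_cast t2
    linarith
  · push Not at hcut
    have hRem : Rem G F = F := filter_true_of_mem hcut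
    have hc0 : cost G (deg G F) F ∅ = ∅ := by
      rw [cost, filter_eq_empty_iff]
      rintro x hx ⟨h | h, -⟩
      · simp at h
      · exact h (hcut x hx)
    rw [hc0, card_empty, hRem]
    rcases Nat.lt_or_ge F.card 3 with h3 | h3
    · refine sum_nonneg fun v hv => ?_
      have h4 := hh_le_deg (G := G) (deg G F) F v
      have h5 := deg_le (G := G) hv
      have : (hh G (deg G F) F v : ℤ) ≤ 1 := by
        have : hh G (deg G F) F v ≤ 1 := by omega
        exact_mod_cast this
      linarith
    · -- no cut vertex, at least three vertices: use double counting directly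
      have hdeg : ∀ v ∈ F, 2 ≤ deg G F v := fun v hv => two_le_deg hF h3 hcut hv
      have e : ∀ v ∈ F, hh G (deg G F) F v = ((F.filter fun u => deg G F u = 3).filter (G.Adj v)).card := by
        intro v hv
        unfold hh
        congr 1
        ext x
        simp only [mem_filter]
        constructor
        · rintro ⟨h1, h4, h5⟩
          have := hdeg x h1
          exact ⟨⟨h1, by omega⟩, h4⟩
        · rintro ⟨⟨h1, h4⟩, h5⟩
          exact ⟨h1, h5, Or.inl h4⟩
      have h6 : ∑ v ∈ F, hh G (deg G F) F v ≤ 3 * F.card := by
        rw [sum_congr rfl e]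
        have := sum_card_bipartiteAbove_eq_sum_card_bipartiteBelow (s := F)
          (t := F.filter fun u => deg G F u = 3) (fun a b => G.Adj a b)
        unfold bipartiteAbove bipartiteBelow at this
        rw [this]
        have h7 : ∑ b ∈ F.filter (fun u => deg G F u = 3), (F.filter fun a => G.Adj a b).card ≤
            (F.filter fun u => deg G F u = 3).card • 3 := by
          apply sum_le_card_nsmul
          intro b hb
          rw [mem_filter] at hb
          rw [← hb.2]
          apply card_le_card
          intro x hx
          rw [mem_filter] at hx ⊢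
          exact ⟨hx.1, hx.2.symm⟩
        refine h7.trans ?_
        rw [smul_eq_mul, mul_comm]
        exact Nat.mul_le_mul_left _ (card_le_card (filter_subset _ _))
      rw [sum_sub_distrib]
      simp only [sum_const, nsmul_eq_mul]
      have h6' : ((∑ v ∈ F, hh G (deg G F) F v : ℕ) : ℤ) ≤ 3 * (F.card : ℤ) := by exact_mod_cast h6
      push_cast at h6' ⊢
      linarith

end

end Pool.Agent.T2H84
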