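import Pool.Agent.T2H84.Conn

/-! The number of removable vertices of a connected set. -/

set_option autoImplicit false
set_option linter.unusedSectionVars false

namespace Pool.Agent.T2H84

open Finset

noncomputable section

open scoped Classical

variable {V : Type*} [DecidableEq V] (G : SimpleGraph V)

/-- Degree inside a set. -/
def deg (C : Finset V) (u : V) : ℕ := (C.filter (G.Adj u)).card

/-- Removable vertices. -/
def Rem (C : Finset V) : Finset V := C.filter fun v => Conn G (C.erase v)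

/-- Number of neighbours of `v` in `C` at which `D` is `1` or `3`. -/
def hh (D : V → ℕ) (C : Finset V) (v : V) : ℕ :=
  (C.filter fun u => G.Adj v u ∧ (D u = 3 ∨ D u = 1)).card

/-- The vertices that have to be paid for. -/
def cost (D : V → ℕ) (F W : Finset V) : Finset V :=
  F.filter fun u => (u ∈ W ∨ ¬ Conn G (F.erase u)) ∧ 2 ≤ deg G F u ∧ 3 ≤ D u

variable {G}

structure Glue (G : SimpleGraph V) (C F₁ F₂ : Finset V) (c : V) : Prop where
  union : F₁ ∪ F₂ = C
  inter : F₁ ∩ F₂ = {c}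
  conn₁ : Conn G F₁
  conn₂ : Conn G F₂
  no : ∀ a ∈ F₁, ∀ b ∈ F₂, a ≠ c → b ≠ c → ¬ G.Adj a b

theorem Glue.symm {C F₁ F₂ : Finset V} {c : V} (h : Glue G C F₁ F₂ c) : Glue G C F₂ F₁ c :=
  ⟨by rw [union_comm]; exact h.union, by rw [inter_comm]; exact h.inter, h.conn₂, h.conn₁,
    fun a ha b hb hac hbc hab => h.no b hb a ha hbc hac hab.symm⟩

theorem Glue.mem₁ {C F₁ F₂ : Finset V} {c : V} (h : Glue G C F₁ F₂ c) : c ∈ F₁ :=
  (mem_inter.1 (h.inter ▸ mem_singleton_self c : c ∈ F₁ ∩ F₂)).1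

theorem Glue.sub₁ {C F₁ F₂ : Finset V} {c : V} (h : Glue G C F₁ F₂ c) : F₁ ⊆ C :=
  h.union ▸ subset_union_left

theorem Glue.notMem {C F₁ F₂ : Finset V} {c : V} (h : Glue G C F₁ F₂ c) {v : V} (hv : v ∈ F₁)
    (hvc : v ≠ c) : v ∉ F₂ :=
  fun h2 => hvc (mem_singleton.1 (h.inter ▸ mem_inter.2 ⟨hv, h2⟩ : v ∈ ({c} : Finset V)))

theorem Glue.filter {C F₁ F₂ : Finset V} {c : V} (h : Glue G C F₁ F₂ c) {v : V} (hv : v ∈ F₁)
    (hvc : v ≠ c) : C.filter (G.Adj v) = F₁.filter (G.Adj v) := by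
  ext x
  simp only [mem_filter]
  constructor
  · rintro ⟨hx, hvx⟩
    refine ⟨?_, hvx⟩
    by_contra hx1
    have hx2 : x ∈ F₂ := by
      have := hx
      rw [← h.union, mem_union] at this
      exact this.resolve_left hx1
    exact h.no v hv x hx2 hvc (fun he => hx1 (he ▸ h.mem₁)) hvx
  · rintro ⟨hx, hvx⟩
    exact ⟨h.sub₁ hx, hvx⟩

theorem Glue.deg {C F₁ F₂ : Finset V} {c : V} (h : Glue G C F₁ F₂ c) {v : V} (hv : v ∈ F₁)
    (hvc : v ≠ c) : deg G C v = deg G F₁ v := by
  unfold Pool.Agent.T2H84.deg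
  rw [h.filter hv hvc]

theorem Glue.hh {C F₁ F₂ : Finset V} {c : V} (h : Glue G C F₁ F₂ c) (D : V → ℕ) {v : V}
    (hv : v ∈ F₁) (hvc : v ≠ c) : hh G D C v = hh G D F₁ v := by
  unfold Pool.Agent.T2H84.hh
  rw [← filter_filter, ← filter_filter, h.filter hv hvc]

theorem Glue.deg_c {C F₁ F₂ : Finset V} {c : V} (h : Glue G C F₁ F₂ c) :
    Pool.Agent.T2H84.deg G C c = Pool.Agent.T2H84.deg G F₁ c + Pool.Agent.T2H84.deg G F₂ c := by
  unfold Pool.Agent.T2H84.deg
  rw [← h.union, filter_union, card_union_of_disjoint]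
  rw [disjoint_left]
  intro x hx1 hx2
  rw [mem_filter] at hx1 hx2
  have : x ∈ ({c} : Finset V) := h.inter ▸ mem_inter.2 ⟨hx1.1, hx2.1⟩
  rw [mem_singleton] at this
  rw [this] at hx1
  exact G.irrefl hx1.2

theorem Glue.erase {C F₁ F₂ : Finset V} {c : V} (h : Glue G C F₁ F₂ c) {v : V} (hv : v ∈ F₁)
    (hvc : v ≠ c) : Conn G (C.erase v) ↔ Conn G (F₁.erase v) :=
  conn_erase_union h.union h.inter h.conn₂ h.no hv hvc

theorem deg_pos {F : Finset V} (hF : Conn G F) (h2 : 2 ≤ F.card) {v : V} (hv : v ∈ F) :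
    1 ≤ deg G F v := by
  obtain ⟨a, ha, b, hb, -, hab⟩ := hF.2 {v} (by simpa using hv) (by simp) (by
    intro he
    rw [← he] at h2
    simp at h2)
  rw [mem_singleton] at ha
  subst ha
  exact card_pos.2 ⟨b, mem_filter.2 ⟨hb, hab⟩⟩

/-- The quantity that is bounded below. -/
def Th (G : SimpleGraph V) (D : V → ℕ) (F W : Finset V) : ℤ :=
  ∑ v ∈ Rem G F \ W, (4 - (hh G D F v : ℤ)) - ((cost G D F W).card : ℤ)

theorem glue_sum {C F₁ F₂ : Finset V} {c : V} (h : Glue G C F₁ F₂ c) (D : V → ℕ) (W : Finset V)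
    (hcut : ¬ Conn G (C.erase c)) :
    ∑ v ∈ Rem G C \ W, (4 - (hh G D C v : ℤ)) =
      ∑ v ∈ Rem G F₁ \ insert c (W ∩ F₁), (4 - (hh G D F₁ v : ℤ)) +
      ∑ v ∈ Rem G F₂ \ insert c (W ∩ F₂), (4 - (hh G D F₂ v : ℤ)) := by
  have hset : Rem G C \ W = (Rem G F₁ \ insert c (W ∩ F₁)) ∪ (Rem G F₂ \ insert c (W ∩ F₂)) := by
    ext x
    simp only [Rem, mem_sdiff, mem_filter, mem_union, mem_insert, mem_inter, not_or, not_and]
    constructor
    · rintro ⟨⟨hx, hcx⟩, hxW⟩
      have hxc : x ≠ c := fun he => hcut (he ▸ hcx)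
      have hx' := hx
      rw [← h.union, mem_union] at hx'
      rcases hx' with h1 | h1
      · exact Or.inl ⟨⟨h1, (h.erase h1 hxc).1 hcx⟩, hxc, fun h2 => absurd h2 hxW⟩
      · exact Or.inr ⟨⟨h1, (h.symm.erase h1 hxc).1 hcx⟩, hxc, fun h2 => absurd h2 hxW⟩
    · rintro (⟨⟨h1, h2⟩, hxc, h3⟩ | ⟨⟨h1, h2⟩, hxc, h3⟩)
      · exact ⟨⟨h.sub₁ h1, (h.erase h1 hxc).2 h2⟩, fun hW => h3 hW h1⟩
      · exact ⟨⟨h.symm.sub₁ h1, (h.symm.erase h1 hxc).2 h2⟩, fun hW => h3 hW h1⟩
  rw [hset, sum_union]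
  · congr 1
    · refine sum_congr rfl fun v hv => ?_
      simp only [Rem, mem_sdiff, mem_filter, mem_insert, not_or] at hv
      rw [h.hh D hv.1.1 hv.2.1]
    · refine sum_congr rfl fun v hv => ?_
      simp only [Rem, mem_sdiff, mem_filter, mem_insert, not_or] at hv
      rw [h.symm.hh D hv.1.1 hv.2.1]
  · rw [disjoint_left]
    intro x hx1 hx2
    simp only [Rem, mem_sdiff, mem_filter, mem_insert, not_or] at hx1 hx2
    exact h.notMem hx1.1.1 hx1.2.1 hx2.1.1

theorem glue_cost {C F₁ F₂ : Finset V} {c : V} (h : Glue G C F₁ F₂ c) (D : V → ℕ) (W : Finset V)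
    (hD : c ∉ W → D c = deg G C c) :
    (cost G D C W).card ≤ (cost G D F₁ (insert c (W ∩ F₁))).card +
      (cost G D F₂ (insert c (W ∩ F₂))).card + (if c ∈ W then 1 else 0) := by
  have hsub : (cost G D C W) ⊆ ((cost G D F₁ (insert c (W ∩ F₁))).erase c ∪
      (cost G D F₂ (insert c (W ∩ F₂))).erase c) ∪ (cost G D C W ∩ {c}) := by
    intro x hx
    by_cases hxc : x = c
    · subst hxc
      exact mem_union_right _ (mem_inter.2 ⟨hx, mem_singleton_self _⟩)
    · apply mem_union_left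
      have hxC : x ∈ C := (mem_filter.1 hx).1
      have hxp := (mem_filter.1 hx).2
      have hx' := hxC
      rw [← h.union, mem_union] at hx'
      rcases hx' with h1 | h1
      · apply mem_union_left
        rw [mem_erase]
        refine ⟨hxc, mem_filter.2 ⟨h1, ?_, ?_, hxp.2.2⟩⟩
        · rcases hxp.1 with h2 | h2
          · exact Or.inl (mem_insert_of_mem (mem_inter.2 ⟨h2, h1⟩))
          · exact Or.inr (fun h3 => h2 ((h.erase h1 hxc).2 h3))
        · rw [← h.deg h1 hxc]; exact hxp.2.1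
      · apply mem_union_right
        rw [mem_erase]
        refine ⟨hxc, mem_filter.2 ⟨h1, ?_, ?_, hxp.2.2⟩⟩
        · rcases hxp.1 with h2 | h2
          · exact Or.inl (mem_insert_of_mem (mem_inter.2 ⟨h2, h1⟩))
          · exact Or.inr (fun h3 => h2 ((h.symm.erase h1 hxc).2 h3))
        · rw [← h.symm.deg h1 hxc]; exact hxp.2.1
  have h1 := (card_le_card hsub).trans ((card_union_le _ _).trans
    (Nat.add_le_add_right (card_union_le _ _) _))
  -- the contribution of `c`
  have h2 : ((cost G D F₁ (insert c (W ∩ F₁))).erase c).card +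
      ((cost G D F₂ (insert c (W ∩ F₂))).erase c).card + (cost G D C W ∩ {c}).card ≤
      (cost G D F₁ (insert c (W ∩ F₁))).card +
      (cost G D F₂ (insert c (W ∩ F₂))).card + (if c ∈ W then 1 else 0) := by
    have e1 : ((cost G D F₁ (insert c (W ∩ F₁))).erase c).card ≤
        (cost G D F₁ (insert c (W ∩ F₁))).card := card_le_card (erase_subset _ _)
    have e2 : ((cost G D F₂ (insert c (W ∩ F₂))).erase c).card ≤
        (cost G D F₂ (insert c (W ∩ F₂))).card := card_le_card (erase_subset _ _)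
    have e3 : (cost G D C W ∩ {c}).card ≤ 1 := by
      have := card_le_card (inter_subset_right : cost G D C W ∩ {c} ⊆ {c})
      simpa using this
    by_cases hcW : c ∈ W
    · rw [if_pos hcW]; omega
    · rw [if_neg hcW]
      by_cases hcc : c ∈ cost G D C W
      · have hcp := (mem_filter.1 hcc).2
        have hDc := hD hcW
        have hdc := h.deg_c
        have h3 := hcp.2.2
        rcases Nat.lt_or_ge (deg G F₁ c) 2 with h4 | h4
        · have h5 : 2 ≤ deg G F₂ c := by omega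
          have h6 : c ∈ cost G D F₂ (insert c (W ∩ F₂)) :=
            mem_filter.2 ⟨h.symm.mem₁, Or.inl (mem_insert_self _ _), h5, h3⟩
          have := card_erase_add_one h6
          omega
        · have h6 : c ∈ cost G D F₁ (insert c (W ∩ F₁)) :=
            mem_filter.2 ⟨h.mem₁, Or.inl (mem_insert_self _ _), h4, h3⟩
          have := card_erase_add_one h6
          omega
      · have : cost G D C W ∩ {c} = ∅ := by
          rw [← disjoint_iff_inter_eq_empty, disjoint_singleton_right]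
          exact hcc
        rw [this, card_empty]
        omega
  omega

theorem card_W {C F₁ F₂ : Finset V} {c : V} (h : Glue G C F₁ F₂ c) {W : Finset V} (hW : W ⊆ C) :
    (insert c (W ∩ F₁)).card + (insert c (W ∩ F₂)).card = W.card + 2 - (if c ∈ W then 1 else 0) := by
  have h1 : W = (W ∩ F₁).erase c ∪ (W ∩ F₂).erase c ∪ (W ∩ {c}) := by
    ext x
    simp only [mem_union, mem_erase, mem_inter, mem_singleton]
    constructor
    · intro hx
      by_cases hxc : x = c
      · exact Or.inr ⟨hx, hxc⟩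
      · have := hW hx
        rw [← h.union, mem_union] at this
        rcases this with h2 | h2
        · exact Or.inl (Or.inl ⟨hxc, hx, h2⟩)
        · exact Or.inl (Or.inr ⟨hxc, hx, h2⟩)
    · rintro ((⟨-, hx, -⟩ | ⟨-, hx, -⟩) | ⟨hx, -⟩) <;> exact hx
  have h2 : W.card = ((W ∩ F₁).erase c).card + ((W ∩ F₂).erase c).card + (W ∩ {c}).card := by
    conv_lhs => rw [h1]
    rw [card_union_of_disjoint, card_union_of_disjoint]
    · rw [disjoint_left]
      intro x hx1 hx2
      simp only [mem_erase, mem_inter] at hx1 hx2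
      exact h.notMem hx1.2.2 hx1.1 hx2.2.2
    · rw [disjoint_left]
      intro x hx1 hx2
      simp only [mem_erase, mem_inter, mem_union, mem_singleton] at hx1 hx2
      rcases hx1 with hx1 | hx1 <;> exact hx1.1 hx2.2
  have e : ∀ S : Finset V, (insert c S).card = (S.erase c).card + 1 := by
    intro S
    rw [← card_erase_add_one (mem_insert_self c S), erase_insert_eq_erase]
  rw [e, e]
  by_cases hcW : c ∈ W
  · have : W ∩ {c} = {c} := by
      rw [inter_eq_right]; simpa using hcW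
    rw [this, card_singleton] at h2
    rw [if_pos hcW]; omega
  · have : W ∩ {c} = ∅ := by
      rw [← disjoint_iff_inter_eq_empty, disjoint_singleton_right]
      exact hcW
    rw [this, card_empty] at h2
    rw [if_neg hcW]; omega

end

end Pool.Agent.T2H84
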