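import Pool.Agent.T2H84.ConnCount

/-! Connected sets of two graphs joined by an edge, and a family of cubic graphs. -/

set_option autoImplicit false
set_option linter.unusedSectionVars false

namespace Pool.Agent.T2H84

open Finset

noncomputable section

open scoped Classical

variable {V W : Type} [DecidableEq V] [Fintype V] [DecidableEq W] [Fintype W]

/-- Two graphs joined by the edge between `b` and `a`. -/
def bridge (G : SimpleGraph V) (H : SimpleGraph W) (b : V) (a : W) : SimpleGraph (V ⊕ W) where
  Adj x y := match x, y with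
    | Sum.inl u, Sum.inl v => G.Adj u v
    | Sum.inr u, Sum.inr v => H.Adj u v
    | Sum.inl u, Sum.inr v => u = b ∧ v = a
    | Sum.inr v, Sum.inl u => u = b ∧ v = a
  symm := ⟨by
    rintro (x | x) (y | y) h
    · exact (show G.Adj x y from h).symm
    · exact h
    · exact h
    · exact (show H.Adj x y from h).symm⟩
  loopless := ⟨by
    rintro (x | x) h
    · exact G.irrefl h
    · exact H.irrefl h⟩

variable {G : SimpleGraph V} {H : SimpleGraph W} {b : V} {a : W}

theorem conn_bridge_mp {C₁ : Finset V} {C₂ : Finset W}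
    (h : Conn (bridge G H b a) (C₁.disjSum C₂)) :
    (C₂ = ∅ ∧ Conn G C₁) ∨ (C₁ = ∅ ∧ Conn H C₂) ∨ (Conn G C₁ ∧ Conn H C₂ ∧ b ∈ C₁ ∧ a ∈ C₂) := by
  rcases C₂.eq_empty_or_nonempty with h2 | h2
  · subst h2
    refine Or.inl ⟨rfl, ?_, fun A hA hne hAC => ?_⟩
    · obtain ⟨x, hx⟩ := h.1
      rcases x with x | x
      · exact ⟨x, by simpa using hx⟩
      · simp at hx
    · obtain ⟨x, hx, y, hy, hyA, hxy⟩ := h.2 (A.disjSum ∅)
        (by intro z hz; rcases z with z | z
            · simp only [inl_mem_disjSum] at hz ⊢; exact hA hz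
            · simp at hz)
        (by obtain ⟨z, hz⟩ := hne; exact ⟨Sum.inl z, by simpa using hz⟩)
        (by
          intro he
          apply hAC
          ext z
          have := congrArg (fun S => Sum.inl z ∈ S) he
          simpa using this)
      rcases x with x | x
      · rcases y with y | y
        · exact ⟨x, by simpa using hx, y, by simpa using hy, by simpa using hyA, hxy⟩
        · simp at hy
      · simp at hx
  rcases C₁.eq_empty_or_nonempty with h1 | h1
  · subst h1
    refine Or.inr (Or.inl ⟨rfl, h2, fun A hA hne hAC => ?_⟩)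
    obtain ⟨x, hx, y, hy, hyA, hxy⟩ := h.2 (disjSum ∅ A)
      (by intro z hz; rcases z with z | z
          · simp at hz
          · simp only [inr_mem_disjSum] at hz ⊢; exact hA hz)
      (by obtain ⟨z, hz⟩ := hne; exact ⟨Sum.inr z, by simpa using hz⟩)
      (by
        intro he
        apply hAC
        ext z
        have := congrArg (fun S => Sum.inr z ∈ S) he
        simpa using this)
    rcases x with x | x
    · simp at hx
    · rcases y with y | y
      · simp at hy
      · exact ⟨x, by simpa using hx, y, by simpa using hy, by simpa using hyA, hxy⟩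
  right; right
  obtain ⟨hb, ha⟩ : b ∈ C₁ ∧ a ∈ C₂ := by
    obtain ⟨x, hx, y, hy, hyA, hxy⟩ := h.2 (C₁.disjSum ∅)
      (by intro z hz; rcases z with z | z
          · simp only [inl_mem_disjSum] at hz ⊢; exact hz
          · simp at hz)
      (by obtain ⟨z, hz⟩ := h1; exact ⟨Sum.inl z, by simpa using hz⟩)
      (by
        intro he
        obtain ⟨z, hz⟩ := h2
        have := congrArg (fun S => Sum.inr z ∈ S) he
        simp [hz] at this)
    rcases x with x | x
    · rcases y with y | y
      · exfalso
        apply hyA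
        simpa using hy
      · have hxy' : x = b ∧ y = a := hxy
        rw [← hxy'.1, ← hxy'.2]
        exact ⟨by simpa using hx, by simpa using hy⟩
    · simp at hx
  refine ⟨conn_of_avoid hb (fun A hA hne hbA => ?_), conn_of_avoid ha (fun A hA hne haA => ?_),
    hb, ha⟩
  · obtain ⟨x, hx, y, hy, hyA, hxy⟩ := h.2 (A.disjSum ∅)
      (by intro z hz; rcases z with z | z
          · simp only [inl_mem_disjSum] at hz ⊢; exact hA hz
          · simp at hz)
      (by obtain ⟨z, hz⟩ := hne; exact ⟨Sum.inl z, by simpa using hz⟩)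
      (by
        intro he
        have := congrArg (fun S => Sum.inl b ∈ S) he
        simp [hb, hbA] at this)
    rcases x with x | x
    · rcases y with y | y
      · exact ⟨x, by simpa using hx, y, by simpa using hy, by simpa using hyA, hxy⟩
      · have hxy' : x = b ∧ y = a := hxy
        exfalso
        apply hbA
        rw [← hxy'.1]
        simpa using hx
    · simp at hx
  · obtain ⟨x, hx, y, hy, hyA, hxy⟩ := h.2 (disjSum ∅ A)
      (by intro z hz; rcases z with z | z
          · simp at hz
          · simp only [inr_mem_disjSum] at hz ⊢; exact hA hz)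
      (by obtain ⟨z, hz⟩ := hne; exact ⟨Sum.inr z, by simpa using hz⟩)
      (by
        intro he
        have := congrArg (fun S => Sum.inr a ∈ S) he
        simp [ha, haA] at this)
    rcases x with x | x
    · simp at hx
    · rcases y with y | y
      · have hxy' : y = b ∧ x = a := hxy
        exfalso
        apply haA
        rw [← hxy'.2]
        simpa using hx
      · exact ⟨x, by simpa using hx, y, by simpa using hy, by simpa using hyA, hxy⟩

theorem conn_bridge_left {C₁ : Finset V} (h : Conn G C₁) :
    Conn (bridge G H b a) (C₁.disjSum ∅) := by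
  obtain ⟨c, hc⟩ := h.1
  refine conn_of_avoid (c := Sum.inl c) (by simpa using hc) (fun A hA hne hcA => ?_)
  obtain ⟨x, hx, y, hy, hyA, hxy⟩ := h.2 A.toLeft
    (fun z hz => by
      have := hA (mem_toLeft.1 hz)
      simpa using this)
    (by
      obtain ⟨z, hz⟩ := hne
      rcases z with z | z
      · exact ⟨z, by simpa using hz⟩
      · have := hA hz
        simp at this)
    (by
      intro he
      apply hcA
      rw [← mem_toLeft, he]
      exact hc)
  exact ⟨Sum.inl x, mem_toLeft.1 hx, Sum.inl y, by simpa using hy,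
    fun h => hyA (mem_toLeft.2 h), hxy⟩

theorem conn_bridge_right {C₂ : Finset W} (h : Conn H C₂) :
    Conn (bridge G H b a) (disjSum ∅ C₂) := by
  obtain ⟨c, hc⟩ := h.1
  refine conn_of_avoid (c := Sum.inr c) (by simpa using hc) (fun A hA hne hcA => ?_)
  obtain ⟨x, hx, y, hy, hyA, hxy⟩ := h.2 A.toRight
    (fun z hz => by
      have := hA (mem_toRight.1 hz)
      simpa using this)
    (by
      obtain ⟨z, hz⟩ := hne
      rcases z with z | z
      · have := hA hz
        simp at this
      · exact ⟨z, by simpa using hz⟩)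
    (by
      intro he
      apply hcA
      rw [← mem_toRight, he]
      exact hc)
  exact ⟨Sum.inr x, mem_toRight.1 hx, Sum.inr y, by simpa using hy,
    fun h => hyA (mem_toRight.2 h), hxy⟩

theorem conn_bridge_both {C₁ : Finset V} {C₂ : Finset W} (h1 : Conn G C₁) (h2 : Conn H C₂)
    (hb : b ∈ C₁) (ha : a ∈ C₂) : Conn (bridge G H b a) (C₁.disjSum C₂) := by
  refine conn_of_avoid (c := Sum.inl b) (by simpa using hb) (fun A hA hne hcA => ?_)
  have hbA : b ∉ A.toLeft := fun h => hcA (mem_toLeft.1 h)
  rcases A.toLeft.eq_empty_or_nonempty with hl | hl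
  · have hr : A.toRight.Nonempty := by
      obtain ⟨z, hz⟩ := hne
      rcases z with z | z
      · exfalso
        have : z ∈ A.toLeft := mem_toLeft.2 hz
        rw [hl] at this
        simp at this
      · exact ⟨z, mem_toRight.2 hz⟩
    by_cases haA : a ∈ A.toRight
    · exact ⟨Sum.inr a, mem_toRight.1 haA, Sum.inl b, by simpa using hb, hcA, ⟨rfl, rfl⟩⟩
    · obtain ⟨x, hx, y, hy, hyA, hxy⟩ := h2.2 A.toRight
        (fun z hz => by
          have := hA (mem_toRight.1 hz)
          simpa using this) hr (fun he => haA (he ▸ ha))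
      exact ⟨Sum.inr x, mem_toRight.1 hx, Sum.inr y, by simpa using hy,
        fun h => hyA (mem_toRight.2 h), hxy⟩
  · obtain ⟨x, hx, y, hy, hyA, hxy⟩ := h1.2 A.toLeft
      (fun z hz => by
        have := hA (mem_toLeft.1 hz)
        simpa using this) hl (fun he => hbA (he ▸ hb))
    exact ⟨Sum.inl x, mem_toLeft.1 hx, Sum.inl y, by simpa using hy,
      fun h => hyA (mem_toLeft.2 h), hxy⟩

/-- Sums over the subsets of a disjoint union. -/
theorem sum_disjSum (f : Finset (V ⊕ W) → ℕ) :
    ∑ C, f C = ∑ C₁ : Finset V, ∑ C₂ : Finset W, f (C₁.disjSum C₂) := by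
  rw [← sum_product']
  refine sum_nbij' (fun C => (C.toLeft, C.toRight)) (fun p => p.1.disjSum p.2) ?_ ?_ ?_ ?_ ?_
  · intro _ _; simp
  · intro _ _; simp
  · intro C _; simp [toLeft_disjSum_toRight]
  · intro p _; simp
  · intro C _; simp [toLeft_disjSum_toRight]

/-- Total weight of the connected sets satisfying `P`. -/
def tot (G : SimpleGraph V) (P : Finset V → Prop) (w : Finset V → ℕ) : ℕ :=
  ∑ C : Finset V, if Conn G C ∧ P C then w C else 0

theorem not_conn_empty : ¬ Conn G ∅ := fun h => by simpa using h.1

/-- The weight of the connected sets of a bridged graph. -/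
theorem tot_bridge (P : Finset (V ⊕ W) → Prop) (w : Finset (V ⊕ W) → ℕ) :
    tot (bridge G H b a) P w =
      tot G (fun C => P (C.disjSum ∅)) (fun C => w (C.disjSum ∅)) +
      tot H (fun C => P (disjSum ∅ C)) (fun C => w (disjSum ∅ C)) +
      ∑ C₁ : Finset V, ∑ C₂ : Finset W,
        if (Conn G C₁ ∧ b ∈ C₁) ∧ (Conn H C₂ ∧ a ∈ C₂) ∧ P (C₁.disjSum C₂)
          then w (C₁.disjSum C₂) else 0 := by
  unfold tot
  rw [sum_disjSum]
  have e1 : ∑ C : Finset V, (if Conn G C ∧ P (C.disjSum ∅) then w (C.disjSum ∅) else 0) =
      ∑ C₁ : Finset V, ∑ C₂ : Finset W, if C₂ = ∅ then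
        (if Conn G C₁ ∧ P (C₁.disjSum ∅) then w (C₁.disjSum ∅) else 0) else 0 := by
    refine sum_congr rfl fun C _ => ?_
    rw [sum_ite_eq' univ (∅ : Finset W)]
    simp
  have e2 : ∑ C : Finset W, (if Conn H C ∧ P (disjSum ∅ C) then w (disjSum ∅ C) else 0) =
      ∑ C₁ : Finset V, ∑ C₂ : Finset W, if C₁ = ∅ then
        (if Conn H C₂ ∧ P (disjSum ∅ C₂) then w (disjSum ∅ C₂) else 0) else 0 := by
    rw [sum_comm]
    refine sum_congr rfl fun C _ => ?_
    rw [sum_ite_eq' univ (∅ : Finset V)]
    simp
  rw [e1, e2, ← sum_add_distrib, ← sum_add_distrib]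
  refine sum_congr rfl fun C₁ _ => ?_
  rw [← sum_add_distrib, ← sum_add_distrib]
  refine sum_congr rfl fun C₂ _ => ?_
  by_cases h2 : C₂ = ∅
  · subst h2
    by_cases h1 : C₁ = ∅
    · subst h1
      have hne : ¬ Conn (bridge G H b a) (disjSum ∅ ∅) := by
        intro h; simpa using h.1
      simp only [not_conn_empty, hne, if_true, if_false, false_and]
    · have hiff : Conn (bridge G H b a) (C₁.disjSum ∅) ↔ Conn G C₁ := by
        constructor
        · intro h
          rcases conn_bridge_mp h with h | h | h
          · exact h.2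
          · exact absurd h.1 h1
          · exact h.1
        · exact conn_bridge_left
      simp only [h1, hiff, not_conn_empty, if_true, if_false, false_and, and_false, add_zero]
  · by_cases h1 : C₁ = ∅
    · subst h1
      have hiff : Conn (bridge G H b a) (disjSum ∅ C₂) ↔ Conn H C₂ := by
        constructor
        · intro h
          rcases conn_bridge_mp h with h | h | h
          · exact absurd h.1 h2
          · exact h.2
          · exact h.2.1
        · exact conn_bridge_right
      simp only [h2, hiff, not_conn_empty, if_true, if_false, false_and, add_zero, zero_add]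
    · have hiff : Conn (bridge G H b a) (C₁.disjSum C₂) ↔
          (Conn G C₁ ∧ b ∈ C₁) ∧ (Conn H C₂ ∧ a ∈ C₂) := by
        constructor
        · intro h
          rcases conn_bridge_mp h with h | h | h
          · exact absurd h.1 h2
          · exact absurd h.1 h1
          · exact ⟨⟨h.1, h.2.2.1⟩, h.2.1, h.2.2.2⟩
        · rintro ⟨⟨h3, h4⟩, h5, h6⟩
          exact conn_bridge_both h3 h5 h4 h6
      simp only [h1, h2, if_false, zero_add, hiff, and_assoc]

end

end Pool.Agent.T2H84
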