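import Pool.Agent.T2H84.ConnBlock

/-! Double counting: the average size of a connected set is at most `5/6` of the order. -/

set_option autoImplicit false
set_option linter.unusedSectionVars false

namespace Pool.Agent.T2H84

open Finset

noncomputable section

open scoped Classical

variable {V : Type*} [DecidableEq V] [Fintype V] (G : SimpleGraph V)

/-- All connected sets. -/
def conns : Finset (Finset V) := univ.filter (Conn G)

/-- Vertices that can be added. -/
def Add (C : Finset V) : Finset V := univ.filter fun v => v ∉ C ∧ Conn G (insert v C)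

/-- The credit. -/
def kk (C : Finset V) (v : V) : ℕ :=
  (C.filter fun u => G.Adj v u ∧ (deg G C u = 2 ∨ deg G C u = 0)).card

variable {G}

theorem double_count (f : Finset V → V → ℤ) :
    ∑ C ∈ conns G, ∑ v ∈ Add G C, f C v = ∑ C ∈ conns G, ∑ v ∈ Rem G C, f (C.erase v) v := by
  rw [sum_sigma', sum_sigma']
  refine sum_nbij' (fun p => ⟨insert p.2 p.1, p.2⟩) (fun p => ⟨p.1.erase p.2, p.2⟩) ?_ ?_ ?_ ?_ ?_
  · rintro ⟨C, v⟩ h
    simp only [mem_sigma, conns, Add, Rem, mem_filter, mem_univ, true_and] at h ⊢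
    exact ⟨h.2.2, mem_insert_self _ _, by rw [erase_insert h.2.1]; exact h.1⟩
  · rintro ⟨C, v⟩ h
    simp only [mem_sigma, conns, Add, Rem, mem_filter, mem_univ, true_and] at h ⊢
    exact ⟨h.2.2, notMem_erase _ _, by rw [insert_erase h.2.1]; exact h.1⟩
  · rintro ⟨C, v⟩ h
    simp only [mem_sigma, conns, Add, mem_filter, mem_univ, true_and] at h
    simp only [erase_insert h.2.1]
  · rintro ⟨C, v⟩ h
    simp only [mem_sigma, conns, Rem, mem_filter, mem_univ, true_and] at h
    simp only [insert_erase h.2.1]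
  · rintro ⟨C, v⟩ h
    simp only [mem_sigma, conns, Add, mem_filter, mem_univ, true_and] at h
    simp only [erase_insert h.2.1]

theorem kk_erase {C : Finset V} {v : V} (hv : v ∈ C) :
    kk G (C.erase v) v = hh G (deg G C) C v := by
  unfold kk hh
  congr 1
  ext u
  simp only [mem_filter, mem_erase]
  have key : G.Adj v u → deg G C u = deg G (C.erase v) u + 1 := by
    intro h
    unfold deg
    have : C.filter (G.Adj u) = insert v ((C.erase v).filter (G.Adj u)) := by
      ext x
      simp only [mem_filter, mem_insert, mem_erase]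
      constructor
      · rintro ⟨h1, h2⟩
        by_cases hx : x = v
        · exact Or.inl hx
        · exact Or.inr ⟨⟨hx, h1⟩, h2⟩
      · rintro (rfl | ⟨⟨-, h1⟩, h2⟩)
        · exact ⟨hv, h.symm⟩
        · exact ⟨h1, h2⟩
    rw [this, card_insert_of_notMem]
    simp
  constructor
  · rintro ⟨⟨h1, h2⟩, h3, h4⟩
    have := key h3
    exact ⟨h2, h3, by omega⟩
  · rintro ⟨h2, h3, h4⟩
    have := key h3
    exact ⟨⟨h3.ne', h2⟩, h3, by omega⟩

theorem cut_deg {C : Finset V} (hC : Conn G C) (h2 : 2 ≤ C.card) {c : V} (hc : c ∈ C)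
    (hcut : ¬ Conn G (C.erase c)) : 2 ≤ deg G C c := by
  obtain ⟨F₁, F₂, hU, hI, hc1, hc2, hF₁, hF₂, hno⟩ := split hC hc h2 hcut
  have hg : Glue G C F₁ F₂ c := ⟨hU, hI, hF₁, hF₂, hno⟩
  have := hg.deg_c
  have := deg_pos hF₁ hc1 hg.mem₁
  have := deg_pos hF₂ hc2 hg.symm.mem₁
  omega

theorem add_credit (h3 : ∀ v, 3 ≤ (univ.filter (G.Adj v)).card) {C : Finset V} (hC : Conn G C) :
    (C.filter fun u => deg G C u = 2 ∨ deg G C u = 0).card ≤ ∑ v ∈ Add G C, kk G C v := by
  have e : ∀ v, kk G C v =
      ((C.filter fun u => deg G C u = 2 ∨ deg G C u = 0).filter (G.Adj v)).card := by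
    intro v
    unfold kk
    congr 1
    ext u
    simp only [mem_filter]
    tauto
  simp only [e]
  have := sum_card_bipartiteAbove_eq_sum_card_bipartiteBelow (s := Add G C)
    (t := C.filter fun u => deg G C u = 2 ∨ deg G C u = 0) (fun a b => G.Adj a b)
  unfold bipartiteAbove bipartiteBelow at this
  rw [this, card_eq_sum_ones]
  refine sum_le_sum fun u hu => ?_
  rw [mem_filter] at hu
  have h4 : ∃ v ∈ univ.filter (G.Adj u), v ∉ C := by
    by_contra hcon
    push Not at hcon
    have : univ.filter (G.Adj u) ⊆ C.filter (G.Adj u) := fun x hx =>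
      mem_filter.2 ⟨hcon x hx, (mem_filter.1 hx).2⟩
    have h5 := card_le_card this
    have h6 := h3 u
    have h7 : (C.filter (G.Adj u)).card = deg G C u := rfl
    rcases hu.2 with h | h <;> omega
  obtain ⟨v, hv, hvC⟩ := h4
  rw [mem_filter] at hv
  apply card_pos.2
  refine ⟨v, mem_filter.2 ⟨mem_filter.2 ⟨mem_univ _, hvC, ?_⟩, hv.2.symm⟩⟩
  rw [conn_insert hC hvC]
  exact ⟨u, hu.1, hv.2.symm⟩

theorem card_Add_le (C : Finset V) : (Add G C).card + C.card ≤ Fintype.card V := by
  have h : Add G C ⊆ univ \ C := by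
    intro x hx
    rw [Add, mem_filter] at hx
    exact mem_sdiff.2 ⟨mem_univ _, hx.2.1⟩
  have h2 := card_le_card h
  rw [card_sdiff_of_subset (subset_univ _), card_univ] at h2
  have h3 := card_le_univ C
  omega

theorem local_ineq (h3 : ∀ v, 3 ≤ (univ.filter (G.Adj v)).card) {C : Finset V} (hC : Conn G C) :
    (6 : ℤ) * C.card - 5 * Fintype.card V ≤
      ∑ v ∈ Rem G C, (5 - (kk G (C.erase v) v : ℤ)) - ∑ v ∈ Add G C, (5 - (kk G C v : ℤ)) := by
  have hadd : (C.filter fun u => deg G C u = 2 ∨ deg G C u = 0).card ≤ ∑ v ∈ Add G C, kk G C v :=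
    add_credit h3 hC
  have hadd' : ((C.filter fun u => deg G C u = 2 ∨ deg G C u = 0).card : ℤ) ≤
      ∑ v ∈ Add G C, (kk G C v : ℤ) := by exact_mod_cast hadd
  have hA : ((Add G C).card : ℤ) + C.card ≤ Fintype.card V := by exact_mod_cast card_Add_le C
  have hsum : ∑ v ∈ Add G C, (5 - (kk G C v : ℤ)) =
      5 * (Add G C).card - ∑ v ∈ Add G C, (kk G C v : ℤ) := by
    rw [sum_sub_distrib, sum_const, nsmul_eq_mul, mul_comm]
  have hRem : ∑ v ∈ Rem G C, (5 - (kk G (C.erase v) v : ℤ)) =
      ∑ v ∈ Rem G C, (4 - (hh G (deg G C) C v : ℤ)) + (Rem G C).card := by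
    rw [card_eq_sum_ones, Nat.cast_sum, ← sum_add_distrib]
    refine sum_congr rfl fun v hv => ?_
    rw [kk_erase (mem_filter.1 hv).1]
    push_cast
    ring
  -- it suffices to bound the size of `C`
  have hmain : (C.card : ℤ) ≤ ∑ v ∈ Rem G C, (4 - (hh G (deg G C) C v : ℤ)) + (Rem G C).card +
      (C.filter fun u => deg G C u = 2 ∨ deg G C u = 0).card := by
    rcases Nat.lt_or_ge C.card 2 with h2 | h2
    · have h1 : C.card = 1 := by have := hC.1.card_pos; omega
      obtain ⟨x, rfl⟩ := card_eq_one.1 h1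
      have hr : Rem G ({x} : Finset V) = ∅ := by
        rw [Rem, filter_eq_empty_iff]
        intro y hy hc
        rw [mem_singleton] at hy
        subst hy
        have := hc.1
        simp at this
      have hf : (({x} : Finset V).filter fun u => deg G {x} u = 2 ∨ deg G {x} u = 0) = {x} := by
        rw [filter_eq_self]
        intro y hy
        rw [mem_singleton] at hy
        subst hy
        right
        unfold deg
        rw [card_eq_zero, filter_eq_empty_iff]
        intro z hz
        rw [mem_singleton] at hz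
        subst hz
        exact G.irrefl
      rw [hr, hf]
      simp
    · have hr := removable hC h2
      have hsplit : C.card = (Rem G C).card +
          (C.filter fun u => ¬ Conn G (C.erase u) ∧ 3 ≤ deg G C u).card +
          (C.filter fun u => ¬ Conn G (C.erase u) ∧ ¬ 3 ≤ deg G C u).card := by
        have e1 : C.card = (C.filter fun u => Conn G (C.erase u)).card +
            (C.filter fun u => ¬ Conn G (C.erase u)).card :=
          (card_filter_add_card_filter_not _).symm
        have e2 : (C.filter fun u => ¬ Conn G (C.erase u)).card =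
            ((C.filter fun u => ¬ Conn G (C.erase u)).filter fun u => 3 ≤ deg G C u).card +
            ((C.filter fun u => ¬ Conn G (C.erase u)).filter fun u => ¬ 3 ≤ deg G C u).card :=
          (card_filter_add_card_filter_not _).symm
        rw [filter_filter, filter_filter] at e2
        unfold Rem
        omega
      have hle : (C.filter fun u => ¬ Conn G (C.erase u) ∧ ¬ 3 ≤ deg G C u).card ≤
          (C.filter fun u => deg G C u = 2 ∨ deg G C u = 0).card := by
        apply card_le_card
        intro x hx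
        rw [mem_filter] at hx ⊢
        refine ⟨hx.1, Or.inl ?_⟩
        have := cut_deg hC h2 hx.1 hx.2.1
        have := hx.2.2
        omega
      have hsplit' : (C.card : ℤ) = (Rem G C).card +
          (C.filter fun u => ¬ Conn G (C.erase u) ∧ 3 ≤ deg G C u).card +
          (C.filter fun u => ¬ Conn G (C.erase u) ∧ ¬ 3 ≤ deg G C u).card := by
        exact_mod_cast hsplit
      have hle' : ((C.filter fun u => ¬ Conn G (C.erase u) ∧ ¬ 3 ≤ deg G C u).card : ℤ) ≤
          (C.filter fun u => deg G C u = 2 ∨ deg G C u = 0).card := by exact_mod_cast hle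
      linarith
  rw [hsum, hRem]
  linarith

/-- The average size of a connected set is at most `5/6` of the order. -/
theorem upper_bound (h3 : ∀ v, 3 ≤ (univ.filter (G.Adj v)).card) :
    6 * ∑ C ∈ conns G, C.card ≤ 5 * Fintype.card V * (conns G).card := by
  have h1 : ∑ C ∈ conns G, ((6 : ℤ) * C.card - 5 * Fintype.card V) ≤
      ∑ C ∈ conns G, (∑ v ∈ Rem G C, (5 - (kk G (C.erase v) v : ℤ)) -
        ∑ v ∈ Add G C, (5 - (kk G C v : ℤ))) :=
    sum_le_sum fun C hC => local_ineq h3 (mem_filter.1 hC).2
  have h2 : ∑ C ∈ conns G, (∑ v ∈ Rem G C, (5 - (kk G (C.erase v) v : ℤ)) -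
        ∑ v ∈ Add G C, (5 - (kk G C v : ℤ))) = 0 := by
    rw [sum_sub_distrib, double_count (fun C v => 5 - (kk G C v : ℤ)), sub_self]
  rw [h2, sum_sub_distrib, ← mul_sum, sum_const, nsmul_eq_mul] at h1
  have h4 : (6 : ℤ) * ∑ C ∈ conns G, (C.card : ℤ) ≤ 5 * Fintype.card V * (conns G).card := by
    linarith
  exact_mod_cast h4

end

end Pool.Agent.T2H84
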