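import Pool.Agent.T2H84.ConnBridge

/-! A family of cubic graphs whose connected sets have average size close to `5/6` of the order. -/

set_option autoImplicit false
set_option linter.unusedSectionVars false

namespace Pool.Agent.T2H84

open Finset

/-- The diamond `K₄ - e` with terminals `0` and `3`. -/
def bead : SimpleGraph (Fin 4) where
  Adj i j := i ≠ j ∧ ¬ (i = 0 ∧ j = 3) ∧ ¬ (i = 3 ∧ j = 0)
  symm := ⟨by decide⟩
  loopless := ⟨by decide⟩

instance : DecidableRel bead.Adj := fun i j =>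
  inferInstanceAs (Decidable (i ≠ j ∧ ¬ (i = 0 ∧ j = 3) ∧ ¬ (i = 3 ∧ j = 0)))

/-- `K₄` with one edge subdivided by the vertex `4`. -/
def cap : SimpleGraph (Fin 5) where
  Adj i j := i ≠ j ∧ ¬ (i = 0 ∧ j = 1) ∧ ¬ (i = 1 ∧ j = 0) ∧ (i = 4 → j = 0 ∨ j = 1) ∧
    (j = 4 → i = 0 ∨ i = 1)
  symm := ⟨by decide⟩
  loopless := ⟨by decide⟩

instance : DecidableRel cap.Adj := fun i j =>
  inferInstanceAs (Decidable (i ≠ j ∧ ¬ (i = 0 ∧ j = 1) ∧ ¬ (i = 1 ∧ j = 0) ∧
    (i = 4 → j = 0 ∨ j = 1) ∧ (j = 4 → i = 0 ∨ i = 1)))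

/-- A decidable form of connectivity. -/
def connb {n : ℕ} (G : SimpleGraph (Fin n)) [DecidableRel G.Adj] (C : Finset (Fin n)) : Bool :=
  decide (C.Nonempty) && decide (∀ A ∈ C.powerset, A.Nonempty → A ≠ C →
    ∃ a ∈ A, ∃ b ∈ C, b ∉ A ∧ G.Adj a b)

theorem connb_iff {n : ℕ} (G : SimpleGraph (Fin n)) [DecidableRel G.Adj] (C : Finset (Fin n)) :
    connb G C = true ↔ Conn G C := by
  unfold connb Conn
  simp only [Bool.and_eq_true, decide_eq_true_eq, mem_powerset]

/-- A computable version of the total weight. -/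
def totb {n : ℕ} (G : SimpleGraph (Fin n)) [DecidableRel G.Adj] (P : Finset (Fin n) → Prop)
    [DecidablePred P] (w : Finset (Fin n) → ℕ) : ℕ :=
  ∑ C : Finset (Fin n), if connb G C = true ∧ P C then w C else 0

noncomputable section

open scoped Classical

theorem tot_eq {n : ℕ} (G : SimpleGraph (Fin n)) [DecidableRel G.Adj] (P : Finset (Fin n) → Prop)
    [DecidablePred P] (w : Finset (Fin n) → ℕ) : tot G P w = totb G P w := by
  unfold tot totb
  refine sum_congr rfl fun C _ => ?_
  by_cases h : Conn G C ∧ P C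
  · rw [if_pos h, if_pos ⟨(connb_iff G C).2 h.1, h.2⟩]
  · rw [if_neg h, if_neg (fun h2 => h ⟨(connb_iff G C).1 h2.1, h2.2⟩)]

theorem bead_all : tot bead (fun _ => True) (fun _ => 1) = 14 := by
  rw [tot_eq]; decide +kernel

theorem bead_3 : tot bead (fun C => 3 ∈ C) (fun _ => 1) = 7 := by
  rw [tot_eq]; decide +kernel

theorem bead_0 : tot bead (fun C => 0 ∈ C) (fun _ => 1) = 7 := by
  rw [tot_eq]; decide +kernel

theorem bead_03 : tot bead (fun C => 0 ∈ C ∧ 3 ∈ C) (fun _ => 1) = 3 := by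
  rw [tot_eq]; decide +kernel

theorem bead_3s : tot bead (fun C => 3 ∈ C) card = 18 := by
  rw [tot_eq]; decide +kernel

theorem bead_03s : tot bead (fun C => 0 ∈ C ∧ 3 ∈ C) card = 10 := by
  rw [tot_eq]; decide +kernel

theorem cap_all : tot cap (fun _ => True) (fun _ => 1) ≤ 31 := by
  rw [tot_eq]; decide +kernel

theorem cap_4 : tot cap (fun C => 4 ∈ C) (fun _ => 1) = 13 := by
  rw [tot_eq]; decide +kernel

theorem cap_4s : tot cap (fun C => 4 ∈ C) card = 41 := by
  rw [tot_eq]; decide +kernel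

theorem cap_conn : Conn cap univ := by
  rw [← connb_iff]; decide +kernel

theorem bead_conn : Conn bead univ := by
  rw [← connb_iff]; decide +kernel

variable {V W : Type} [DecidableEq V] [Fintype V] [DecidableEq W] [Fintype W]

theorem tot_congr {G : SimpleGraph V} {P Q : Finset V → Prop} {w w' : Finset V → ℕ}
    (h : ∀ C, P C ↔ Q C) (hw : ∀ C, w C = w' C) : tot G P w = tot G Q w' := by
  have h1 : P = Q := funext fun C => propext (h C)
  have h2 : w = w' := funext hw
  rw [h1, h2]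

theorem tot_false {G : SimpleGraph V} {P : Finset V → Prop} {w : Finset V → ℕ}
    (h : ∀ C, ¬ P C) : tot G P w = 0 := by
  unfold tot
  refine sum_eq_zero fun C _ => ?_
  rw [if_neg]
  exact fun h2 => h C h2.2

theorem third_one {G : SimpleGraph V} {H : SimpleGraph W} {b : V} {a : W}
    {P : Finset (V ⊕ W) → Prop} {q : Finset W → Prop}
    (hP : ∀ (C₁ : Finset V) (C₂ : Finset W), P (C₁.disjSum C₂) ↔ q C₂) :
    (∑ C₁ : Finset V, ∑ C₂ : Finset W,
      if (Conn G C₁ ∧ b ∈ C₁) ∧ (Conn H C₂ ∧ a ∈ C₂) ∧ P (C₁.disjSum C₂) then 1 else 0) =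
      tot G (fun C => b ∈ C) (fun _ => 1) * tot H (fun C => a ∈ C ∧ q C) (fun _ => 1) := by
  unfold tot
  rw [sum_mul_sum]
  refine sum_congr rfl fun C₁ _ => sum_congr rfl fun C₂ _ => ?_
  by_cases h1 : Conn G C₁ ∧ b ∈ C₁ <;> by_cases h2 : Conn H C₂ ∧ a ∈ C₂ ∧ q C₂
  · rw [if_pos h1, if_pos h2, if_pos ⟨h1, ⟨h2.1, h2.2.1⟩, (hP _ _).2 h2.2.2⟩]
    simp
  · rw [if_pos h1, if_neg h2, if_neg (fun h3 => h2 ⟨h3.2.1.1, h3.2.1.2, (hP _ _).1 h3.2.2⟩)]
    simp
  · rw [if_neg h1, if_neg (fun h3 => h1 h3.1)]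
    simp
  · rw [if_neg h1, if_neg (fun h3 => h1 h3.1)]
    simp

theorem third_card {G : SimpleGraph V} {H : SimpleGraph W} {b : V} {a : W}
    {P : Finset (V ⊕ W) → Prop} {q : Finset W → Prop}
    (hP : ∀ (C₁ : Finset V) (C₂ : Finset W), P (C₁.disjSum C₂) ↔ q C₂) :
    (∑ C₁ : Finset V, ∑ C₂ : Finset W,
      if (Conn G C₁ ∧ b ∈ C₁) ∧ (Conn H C₂ ∧ a ∈ C₂) ∧ P (C₁.disjSum C₂)
        then (C₁.disjSum C₂).card else 0) =
      tot G (fun C => b ∈ C) card * tot H (fun C => a ∈ C ∧ q C) (fun _ => 1) +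
      tot G (fun C => b ∈ C) (fun _ => 1) * tot H (fun C => a ∈ C ∧ q C) card := by
  unfold tot
  rw [sum_mul_sum, sum_mul_sum, ← sum_add_distrib]
  refine sum_congr rfl fun C₁ _ => ?_
  rw [← sum_add_distrib]
  refine sum_congr rfl fun C₂ _ => ?_
  by_cases h1 : Conn G C₁ ∧ b ∈ C₁ <;> by_cases h2 : Conn H C₂ ∧ a ∈ C₂ ∧ q C₂
  · rw [if_pos h1, if_pos h2, if_pos ⟨h1, ⟨h2.1, h2.2.1⟩, (hP _ _).2 h2.2.2⟩, if_pos h1,
      if_pos h2, card_disjSum]
    ring
  · rw [if_pos h1, if_neg h2, if_neg (fun h3 => h2 ⟨h3.2.1.1, h3.2.1.2, (hP _ _).1 h3.2.2⟩),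
      if_neg h2]
    simp
  · rw [if_neg h1, if_neg (fun h3 => h1 h3.1), if_neg h1]
    simp
  · rw [if_neg h1, if_neg (fun h3 => h1 h3.1), if_neg h1]
    simp

/-- Degree. -/
def dg (G : SimpleGraph V) (u : V) : ℕ := (univ.filter (G.Adj u)).card

theorem dg_inl (G : SimpleGraph V) (H : SimpleGraph W) (b : V) (a : W) (u : V) :
    dg (bridge G H b a) (Sum.inl u) = dg G u + (if u = b then 1 else 0) := by
  unfold dg
  have : univ.filter ((bridge G H b a).Adj (Sum.inl u)) =
      (univ.filter (G.Adj u)).disjSum (if u = b then {a} else ∅) := by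
    ext x
    rcases x with x | x
    · simp only [mem_filter, mem_univ, true_and, inl_mem_disjSum]
      exact Iff.rfl
    · simp only [mem_filter, mem_univ, true_and, inr_mem_disjSum]
      show (u = b ∧ x = a) ↔ _
      by_cases h : u = b <;> simp [h]
  rw [this, card_disjSum]
  by_cases h : u = b <;> simp [h]

theorem dg_inr (G : SimpleGraph V) (H : SimpleGraph W) (b : V) (a : W) (u : W) :
    dg (bridge G H b a) (Sum.inr u) = dg H u + (if u = a then 1 else 0) := by
  unfold dg
  have : univ.filter ((bridge G H b a).Adj (Sum.inr u)) =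
      disjSum (if u = a then {b} else ∅) (univ.filter (H.Adj u)) := by
    ext x
    rcases x with x | x
    · simp only [mem_filter, mem_univ, true_and, inl_mem_disjSum]
      show (x = b ∧ u = a) ↔ _
      by_cases h : u = a <;> simp [h]
    · simp only [mem_filter, mem_univ, true_and, inr_mem_disjSum]
      exact Iff.rfl
  rw [this, card_disjSum, add_comm]
  by_cases h : u = a <;> simp [h]

theorem conn_univ_bridge {G : SimpleGraph V} {H : SimpleGraph W} {b : V} {a : W}
    (h1 : Conn G univ) (h2 : Conn H univ) : Conn (bridge G H b a) univ := by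
  have : (univ : Finset (V ⊕ W)) = (univ : Finset V).disjSum (univ : Finset W) := by
    ext x
    rcases x with x | x <;> simp
  rw [this]
  exact conn_bridge_both h1 h2 (mem_univ _) (mem_univ _)

/-- The half graphs. -/
theorem half (m : ℕ) : ∃ (V : Type) (_ : Fintype V) (_ : DecidableEq V) (G : SimpleGraph V) (b : V),
    Fintype.card V = 5 + 4 * m ∧ Conn G univ ∧ dg G b = 2 ∧ (∀ u, u ≠ b → dg G u = 3) ∧
    10 * m * tot G (fun C => b ∈ C) (fun _ => 1) + 60 * (m + 1) ≤
      3 * tot G (fun C => b ∈ C) card ∧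
    tot G (fun _ => True) (fun _ => 1) ≤ 4 * tot G (fun C => b ∈ C) (fun _ => 1) ∧
    m + 1 ≤ tot G (fun C => b ∈ C) (fun _ => 1) := by
  induction m with
  | zero =>
    refine ⟨Fin 5, inferInstance, inferInstance, cap, 4, by simp, cap_conn, ?_, ?_, ?_, ?_, ?_⟩
    · have : dg cap 4 = (univ.filter (fun x => cap.Adj 4 x)).card := by
        unfold dg; congr
      rw [this]; decide +kernel
    · intro u hu
      have : dg cap u = (univ.filter (fun x => cap.Adj u x)).card := by
        unfold dg; congr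
      rw [this]
      have hall : ∀ u : Fin 5, u ≠ 4 → (univ.filter (fun x => cap.Adj u x)).card = 3 := by
        decide +kernel
      exact hall u hu
    · rw [cap_4, cap_4s]
      norm_num
    · have := cap_all
      rw [cap_4]; omega
    · rw [cap_4]; omega
  | succ m ih =>
    obtain ⟨V, i1, i2, G, b, hV, hG, hb, hd, h1, h2, h3⟩ := ih
    set B := tot G (fun C => b ∈ C) (fun _ => 1) with hB
    set S := tot G (fun C => b ∈ C) card with hS
    set T := tot G (fun _ => True) (fun _ => 1) with hT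
    have hB' : tot (bridge G bead b 0) (fun C => Sum.inr 3 ∈ C) (fun _ => 1) = 3 * B + 7 := by
      rw [tot_bridge, third_one (P := fun C => (Sum.inr 3 : V ⊕ Fin 4) ∈ C) (q := fun C => (3 : Fin 4) ∈ C) (fun C₁ C₂ => inr_mem_disjSum),
        tot_false (P := fun C : Finset V => (Sum.inr 3 : V ⊕ Fin 4) ∈ C.disjSum ∅)
          (fun C h => by rw [inr_mem_disjSum] at h; simp at h),
        tot_congr (P := fun C : Finset (Fin 4) => (Sum.inr 3 : V ⊕ Fin 4) ∈ disjSum ∅ C)
          (fun C => inr_mem_disjSum) (fun _ => rfl), bead_3, bead_03]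
      ring
    have hS' : tot (bridge G bead b 0) (fun C => Sum.inr 3 ∈ C) card = 3 * S + 10 * B + 18 := by
      rw [tot_bridge, third_card (P := fun C => (Sum.inr 3 : V ⊕ Fin 4) ∈ C) (q := fun C => (3 : Fin 4) ∈ C) (fun C₁ C₂ => inr_mem_disjSum),
        tot_false (P := fun C : Finset V => (Sum.inr 3 : V ⊕ Fin 4) ∈ C.disjSum ∅)
          (fun C h => by rw [inr_mem_disjSum] at h; simp at h),
        tot_congr (P := fun C : Finset (Fin 4) => (Sum.inr 3 : V ⊕ Fin 4) ∈ disjSum ∅ C)
          (w' := card) (fun C => inr_mem_disjSum) (fun C => by simp), bead_3s, bead_03s,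
          bead_03]
      ring
    have hT' : tot (bridge G bead b 0) (fun _ => True) (fun _ => 1) = T + 7 * B + 14 := by
      rw [tot_bridge, third_one (P := fun _ => True) (q := fun _ => True) (fun C₁ C₂ => Iff.rfl), bead_all,
        tot_congr (P := fun C : Finset (Fin 4) => 0 ∈ C ∧ True) (Q := fun C => 0 ∈ C)
          (w' := fun _ => 1) (fun C => by simp) (fun _ => rfl), bead_0]
      ring
    refine ⟨V ⊕ Fin 4, inferInstance, inferInstance, bridge G bead b 0, Sum.inr 3, ?_, ?_, ?_, ?_,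
      ?_, ?_, ?_⟩
    · rw [Fintype.card_sum, hV, Fintype.card_fin]; ring
    · exact conn_univ_bridge hG bead_conn
    · rw [dg_inr]
      have : dg bead 3 = (univ.filter (fun x => bead.Adj 3 x)).card := by
        unfold dg; congr
      rw [this]; decide +kernel
    · intro u hu
      rcases u with u | u
      · rw [dg_inl]
        by_cases hub : u = b
        · rw [hub, hb, if_pos rfl]
        · rw [hd u hub, if_neg hub]
      · rw [dg_inr]
        have : dg bead u = (univ.filter (fun x => bead.Adj u x)).card := by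
          unfold dg; congr
        rw [this]
        have hu3 : u ≠ 3 := fun h => hu (by rw [h])
        have hall : ∀ u : Fin 4, u ≠ 3 → (univ.filter (fun x => bead.Adj u x)).card +
            (if u = 0 then 1 else 0) = 3 := by decide +kernel
        exact hall u hu3
    · rw [hB', hS']
      have hm : 10 * (m + 1) * (3 * B + 7) = 3 * (10 * m * B) + 30 * B + 70 * (m + 1) := by ring
      rw [hm]
      omega
    · rw [hB', hT']; omega
    · rw [hB']; omega

end

end Pool.Agent.T2H84
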