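import Pool.Agent.T2H84.ConnFamily

/-! Cubic graphs on `8m+10` vertices with many large connected sets. -/

set_option autoImplicit false
set_option linter.unusedSectionVars false

namespace Pool.Agent.T2H84

open Finset

noncomputable section

open scoped Classical

variable {V W : Type} [DecidableEq V] [Fintype V] [DecidableEq W] [Fintype W]

theorem conn_map {G : SimpleGraph V} {H : SimpleGraph W} (e : V ≃ W)
    (he : ∀ x y, G.Adj x y → H.Adj (e x) (e y)) {C : Finset V} (h : Conn G C) :
    Conn H (C.map e.toEmbedding) := by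
  refine ⟨h.1.map, fun A hA hne hAC => ?_⟩
  obtain ⟨x, hx, y, hy, hyA, hxy⟩ := h.2 (A.map e.symm.toEmbedding)
    (fun z hz => by
      obtain ⟨w, hw, rfl⟩ := mem_map.1 hz
      obtain ⟨v, hv, hvw⟩ := mem_map.1 (hA hw)
      have : e.symm w = v := by rw [← hvw]; simp
      show e.symm w ∈ C
      rw [this]; exact hv)
    hne.map
    (fun hh => hAC (by
      rw [← hh]
      ext z
      simp [mem_map]))
  refine ⟨e x, ?_, e y, mem_map_of_mem _ hy, ?_, he x y hxy⟩
  · obtain ⟨w, hw, hwx⟩ := mem_map.1 hx
    rw [← hwx]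
    simpa using hw
  · intro h2
    exact hyA (mem_map.2 ⟨e y, h2, by simp⟩)

theorem tot_map {G : SimpleGraph V} {H : SimpleGraph W} (e : V ≃ W)
    (he : ∀ x y, G.Adj x y ↔ H.Adj (e x) (e y)) {P : Finset V → Prop} {Q : Finset W → Prop}
    {w : Finset V → ℕ} {w' : Finset W → ℕ} (hP : ∀ C, P C ↔ Q (C.map e.toEmbedding))
    (hw : ∀ C, w C = w' (C.map e.toEmbedding)) : tot G P w = tot H Q w' := by
  unfold tot
  refine Fintype.sum_equiv e.finsetCongr _ _ fun C => ?_
  rw [Equiv.finsetCongr_apply]
  have hiff : Conn G C ↔ Conn H (C.map e.toEmbedding) := by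
    constructor
    · exact conn_map e fun x y h => (he x y).1 h
    · intro h
      have := conn_map (G := H) (H := G) e.symm
        (fun x y h => (he _ _).2 (by simpa using h)) h
      have h2 : (C.map e.toEmbedding).map e.symm.toEmbedding = C := by
        ext z
        simp [mem_map]
      rwa [h2] at this
  rw [hw C]
  by_cases h1 : Conn G C ∧ P C
  · rw [if_pos h1, if_pos ⟨hiff.1 h1.1, (hP C).1 h1.2⟩]
  · rw [if_neg h1, if_neg (fun h2 => h1 ⟨hiff.2 h2.1, (hP C).2 h2.2⟩)]

theorem tot_conns (G : SimpleGraph V) (w : Finset V → ℕ) :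
    tot G (fun _ => True) w = ∑ C ∈ conns G, w C := by
  unfold tot conns
  rw [sum_filter]
  refine sum_congr rfl fun C _ => ?_
  simp

theorem exists_cubic_type (m : ℕ) : ∃ (V : Type) (_ : Fintype V) (_ : DecidableEq V)
    (K : SimpleGraph V), Fintype.card V = 8 * m + 10 ∧ Conn K univ ∧ (∀ v, dg K v = 3) ∧
    20 * m * tot K (fun _ => True) (fun _ => 1) ≤
      3 * tot K (fun _ => True) card + 40 * tot K (fun _ => True) (fun _ => 1) := by
  obtain ⟨V, i1, i2, G, b, hV, hG, hb, hd, h1, h2, h3⟩ := half m
  refine ⟨V ⊕ V, inferInstance, inferInstance, bridge G G b b, ?_, conn_univ_bridge hG hG, ?_, ?_⟩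
  · rw [Fintype.card_sum, hV]; ring
  · intro v
    rcases v with v | v
    · rw [dg_inl]
      by_cases h : v = b
      · rw [h, hb, if_pos rfl]
      · rw [hd v h, if_neg h]
    · rw [dg_inr]
      by_cases h : v = b
      · rw [h, hb, if_pos rfl]
      · rw [hd v h, if_neg h]
  · set B := tot G (fun C => b ∈ C) (fun _ => 1) with hB
    set S := tot G (fun C => b ∈ C) card with hS
    set T := tot G (fun _ => True) (fun _ => 1) with hT
    have hA : tot (bridge G G b b) (fun _ => True) (fun _ => 1) = T + T + B * B := by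
      rw [tot_bridge, third_one (P := fun _ => True) (q := fun _ => True) (fun C₁ C₂ => Iff.rfl),
        tot_congr (P := fun C : Finset V => b ∈ C ∧ True) (Q := fun C => b ∈ C)
          (w' := fun _ => 1) (fun C => by simp) (fun _ => rfl)]
    have hSA : 2 * B * S ≤ tot (bridge G G b b) (fun _ => True) card := by
      rw [tot_bridge, third_card (P := fun _ => True) (q := fun _ => True) (fun C₁ C₂ => Iff.rfl),
        tot_congr (P := fun C : Finset V => b ∈ C ∧ True) (Q := fun C => b ∈ C)
          (w' := fun _ => 1) (fun C => by simp) (fun _ => rfl),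
        tot_congr (w := card) (P := fun C : Finset V => b ∈ C ∧ True) (Q := fun C => b ∈ C)
          (w' := card) (fun C => by simp) (fun _ => rfl), ← hB, ← hS]
      nlinarith [Nat.zero_le (tot G (fun C => True) fun C => (C.disjSum (∅ : Finset V)).card),
        Nat.zero_le (tot G (fun C => True) fun C => (disjSum (∅ : Finset V) C).card)]
    rw [hA]
    have e1 : 2 * B * (10 * m * B + 60 * (m + 1)) ≤ 2 * B * (3 * S) := Nat.mul_le_mul_left _ h1
    have e2 : m * B ≤ B * B := Nat.mul_le_mul_right _ (by omega)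
    have e3 : m * T ≤ m * (4 * B) := Nat.mul_le_mul_left _ h2
    nlinarith

/-- The cubic graphs. -/
theorem exists_cubic (m : ℕ) : ∃ K : SimpleGraph (Fin (8 * m + 10)), Conn K univ ∧
    (∀ v, (univ.filter (K.Adj v)).card = 3) ∧
    20 * m * (conns K).card ≤ 3 * ∑ C ∈ conns K, C.card + 40 * (conns K).card := by
  obtain ⟨V, i1, i2, K, hV, hK, hd, h⟩ := exists_cubic_type m
  let e : V ≃ Fin (8 * m + 10) := Fintype.equivFinOfCardEq hV
  have he : ∀ x y, K.Adj x y ↔ (K.comap e.symm).Adj (e x) (e y) := by
    intro x y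
    simp [SimpleGraph.comap_adj]
  refine ⟨K.comap e.symm, ?_, ?_, ?_⟩
  · have := conn_map (H := K.comap e.symm) e (fun x y h => (he x y).1 h) hK
    rwa [map_univ_equiv] at this
  · intro v
    rw [← hd (e.symm v)]
    unfold dg
    refine card_nbij' e.symm e ?_ ?_ ?_ ?_
    · intro x hx
      simpa using hx
    · intro x hx
      simpa using hx
    · intro x _; simp
    · intro x _; simp
  · have t1 : tot K (fun _ => True) (fun _ => 1) =
        tot (K.comap e.symm) (fun _ => True) (fun _ => 1) :=
      tot_map e he (fun _ => Iff.rfl) (fun _ => rfl)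
    have t2 : tot K (fun _ => True) card = tot (K.comap e.symm) (fun _ => True) card :=
      tot_map e he (fun _ => Iff.rfl) (fun _ => by simp)
    rw [t1, t2, tot_conns, tot_conns] at h
    simpa using h

end

end Pool.Agent.T2H84
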